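import Pool.Agent.TQS.Defs

/-!
Project TQS, base: the action by automorphisms, finiteness, conjugation.
-/

namespace Pool.Agent.TQS

open Quaternion

theorem normSq_eq (a : H) : Quaternion.normSq a = a.re ^ 2 + a.imI ^ 2 + a.imJ ^ 2 + a.imK ^ 2 :=
  Quaternion.normSq_def' a

theorem cases4 (i : ZMod 4) : i = 0 ∨ i = 1 ∨ i = 2 ∨ i = 3 := by
  revert i; decide

theorem rot0 (a : H) : rot 0 a = a := rfl

theorem rot1 (a : H) : rot 1 a = ⟨a.re, a.imI, -a.imK, a.imJ⟩ := rfl

theorem rot2 (a : H) : rot 2 a = ⟨a.re, a.imI, -a.imJ, -a.imK⟩ := rfl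

theorem rot3 (a : H) : rot 3 a = ⟨a.re, a.imI, a.imK, -a.imJ⟩ := rfl

theorem act_one (a : H) : act 1 a = a := by
  rw [DihedralGroup.one_def]
  rfl

theorem rot_add (i j : ZMod 4) (a : H) : rot (i + j) a = rot i (rot j a) := by
  rcases cases4 i with rfl | rfl | rfl | rfl <;> rcases cases4 j with rfl | rfl | rfl | rfl
  all_goals first
    | (rw [show (0 : ZMod 4) + 0 = 0 from rfl]; simp only [rot0])
    | skip
  all_goals ext
  all_goals first
    | rfl
    | (simp only [rot0, rot1, rot2, rot3, zero_add, add_zero]; done)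
    | (simp only [rot0, rot1, rot2, rot3, zero_add, add_zero, show (1 : ZMod 4) + 1 = 2 from rfl,
        show (1 : ZMod 4) + 2 = 3 from rfl, show (1 : ZMod 4) + 3 = 0 from rfl,
        show (2 : ZMod 4) + 1 = 3 from rfl, show (2 : ZMod 4) + 2 = 0 from rfl,
        show (2 : ZMod 4) + 3 = 1 from rfl, show (3 : ZMod 4) + 1 = 0 from rfl,
        show (3 : ZMod 4) + 2 = 1 from rfl, show (3 : ZMod 4) + 3 = 2 from rfl, neg_neg])

theorem rot_hmul (i : ZMod 4) (a b : H) : rot i (a * b) = rot i a * rot i b := by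
  rcases cases4 i with rfl | rfl | rfl | rfl <;> ext <;> simp [rot0, rot1, rot2, rot3] <;> ring

theorem flp_hmul (a b : H) : flp (a * b) = flp a * flp b := by
  ext <;> simp [flp] <;> ring

theorem flp_flp (a : H) : flp (flp a) = a := by
  ext <;> simp [flp]

theorem rot_flp (i : ZMod 4) (a : H) : rot i (flp a) = flp (rot (-i) a) := by
  rcases cases4 i with rfl | rfl | rfl | rfl
  · ext <;> simp [rot0, flp]
  · rw [show -(1 : ZMod 4) = 3 from rfl]
    ext <;> simp [rot1, rot3, flp]
  · rw [show -(2 : ZMod 4) = 2 from rfl]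
    ext <;> simp [rot2, flp]
  · rw [show -(3 : ZMod 4) = 1 from rfl]
    ext <;> simp [rot1, rot3, flp]

theorem act_mul (g h : G) (a : H) : act (g * h) a = act g (act h a) := by
  rcases g with i | i <;> rcases h with j | j
  · simp only [DihedralGroup.r_mul_r, act, rot_add]
  · simp only [DihedralGroup.r_mul_sr, act]
    rw [sub_eq_neg_add, rot_add, rot_flp]
  · simp only [DihedralGroup.sr_mul_r, act, rot_add]
  · simp only [DihedralGroup.sr_mul_sr, act]
    rw [sub_eq_neg_add, rot_add, rot_flp, flp_flp]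

theorem act_hmul (g : G) (a b : H) : act g (a * b) = act g a * act g b := by
  rcases g with i | i
  · exact rot_hmul i a b
  · simp only [act, rot_hmul, flp_hmul]

theorem rot_neg (i : ZMod 4) (a : H) : rot i (-a) = - rot i a := by
  rcases cases4 i with rfl | rfl | rfl | rfl <;> ext <;> simp [rot0, rot1, rot2, rot3]

theorem act_neg (g : G) (a : H) : act g (-a) = - act g a := by
  rcases g with i | i
  · exact rot_neg i a
  · simp only [act, rot_neg]
    ext <;> simp [flp]

theorem rot_star (i : ZMod 4) (a : H) : rot i (star a) = star (rot i a) := by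
  rcases cases4 i with rfl | rfl | rfl | rfl <;> ext <;> simp [rot0, rot1, rot2, rot3]

theorem act_star (g : G) (a : H) : act g (star a) = star (act g a) := by
  rcases g with i | i
  · exact rot_star i a
  · simp only [act, rot_star]
    ext <;> simp [flp]

theorem rot_re (i : ZMod 4) (a : H) : (rot i a).re = a.re := by
  rcases cases4 i with rfl | rfl | rfl | rfl <;> rfl

theorem act_re (g : G) (a : H) : (act g a).re = a.re := by
  rcases g with i | i
  · exact rot_re i a
  · simp only [act, flp, rot_re]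

theorem rot_norm (i : ZMod 4) (a : H) : normSq (rot i a) = normSq a := by
  rw [normSq_eq, normSq_eq]
  rcases cases4 i with rfl | rfl | rfl | rfl <;> simp only [rot0, rot1, rot2, rot3] <;> ring

theorem act_norm (g : G) (a : H) : normSq (act g a) = normSq a := by
  rcases g with i | i
  · exact rot_norm i a
  · simp only [act]
    rw [← rot_norm i a]
    generalize rot i a = b
    rw [normSq_eq, normSq_eq]
    simp [flp]

theorem rot_AA (l : ℕ) (i : ZMod 4) {a : H} (h : a ∈ AA l) : rot i a ∈ AA l := by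
  obtain ⟨h0, h1, h2, h3, h4, h5⟩ := h
  refine ⟨by rw [rot_re]; exact h0, by rw [rot_re]; exact h1, ?_, ?_, ?_, by rw [rot_norm]; exact h5⟩
  all_goals rcases cases4 i with rfl | rfl | rfl | rfl <;> simp only [rot0, rot1, rot2, rot3] <;> omega

theorem act_AA (l : ℕ) (g : G) {a : H} (h : a ∈ AA l) : act g a ∈ AA l := by
  rcases g with i | i
  · exact rot_AA l i h
  · have h' := rot_AA l i h
    obtain ⟨h0, h1, h2, h3, h4, h5⟩ := h'
    refine ⟨h0, h1, ?_, h3, ?_, by rw [act_norm]; exact h.2.2.2.2.2⟩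
    · simp only [act, flp]; omega
    · simp only [act, flp]; omega

theorem rot_VV (l : ℕ) (i : ZMod 4) {a : H} (h : a ∈ VV l) : rot i a ∈ VV l := by
  obtain ⟨h0, h1, h2, h3, h4, h5⟩ := h
  refine ⟨by rw [rot_re]; exact h0, by rw [rot_re]; exact h1, ?_, ?_, ?_, by rw [rot_norm]; exact h5⟩
  all_goals rcases cases4 i with rfl | rfl | rfl | rfl <;> simp only [rot0, rot1, rot2, rot3] <;> omega

theorem act_VV (l : ℕ) (g : G) {a : H} (h : a ∈ VV l) : act g a ∈ VV l := by
  rcases g with i | i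
  · exact rot_VV l i h
  · have h' := rot_VV l i h
    obtain ⟨h0, h1, h2, h3, h4, h5⟩ := h'
    refine ⟨h0, h1, ?_, h3, ?_, by rw [act_norm]; exact h.2.2.2.2.2⟩
    · simp only [act, flp]; omega
    · simp only [act, flp]; omega

instance actA (l : ℕ) : MulAction G (AA l) where
  smul g a := ⟨act g a, act_AA l g a.2⟩
  one_smul a := Subtype.ext (act_one a)
  mul_smul g h a := Subtype.ext (act_mul g h a)

instance actV (m : ℕ) : MulAction G (VV m) where
  smul g a := ⟨act g a, act_VV m g a.2⟩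
  one_smul a := Subtype.ext (act_one a)
  mul_smul g h a := Subtype.ext (act_mul g h a)

theorem smulA_val {l : ℕ} (g : G) (a : AA l) : ((g • a : AA l) : H) = act g a := rfl

theorem smulV_val {m : ℕ} (g : G) (a : VV m) : ((g • a : VV m) : H) = act g a := rfl

theorem bounded_finite (m : ℕ) : {a : H | normSq a = (m : ℤ)}.Finite := by
  have h1 : (Set.Icc (-(m : ℤ)) m ×ˢ Set.Icc (-(m : ℤ)) m ×ˢ Set.Icc (-(m : ℤ)) m ×ˢ
      Set.Icc (-(m : ℤ)) m).Finite :=
    (Set.finite_Icc _ _).prod ((Set.finite_Icc _ _).prod ((Set.finite_Icc _ _).prod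
      (Set.finite_Icc _ _)))
  refine (h1.image (fun p : ℤ × ℤ × ℤ × ℤ => (⟨p.1, p.2.1, p.2.2.1, p.2.2.2⟩ : H))).subset ?_
  intro a ha
  refine ⟨(a.re, a.imI, a.imJ, a.imK), ?_, rfl⟩
  change normSq a = (m : ℤ) at ha
  rw [normSq_eq] at ha
  simp only [Set.mem_prod, Set.mem_Icc]
  have key : ∀ x y : ℤ, 0 ≤ y → x ^ 2 + y = m → -(m : ℤ) ≤ x ∧ x ≤ m := by
    intro x y hy hx
    constructor <;> nlinarith [sq_nonneg (x - 1), sq_nonneg (x + 1), sq_nonneg x]
  refine ⟨key _ (a.imI ^ 2 + a.imJ ^ 2 + a.imK ^ 2) (by positivity) (by linarith),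
    key _ (a.re ^ 2 + a.imJ ^ 2 + a.imK ^ 2) (by positivity) (by linarith),
    key _ (a.re ^ 2 + a.imI ^ 2 + a.imK ^ 2) (by positivity) (by linarith),
    key _ (a.re ^ 2 + a.imI ^ 2 + a.imJ ^ 2) (by positivity) (by linarith)⟩

instance finA (l : ℕ) : Finite (AA l) :=
  ((bounded_finite l).subset (fun _ h => h.2.2.2.2.2)).to_subtype

instance finV (m : ℕ) : Finite (VV m) :=
  ((bounded_finite m).subset (fun _ h => h.2.2.2.2.2)).to_subtype

theorem star_AA (l : ℕ) {a : H} (h : a ∈ AA l) : star a ∈ AA l := by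
  obtain ⟨h0, h1, h2, h3, h4, h5⟩ := h
  refine ⟨by simpa using h0, by simpa using h1, ?_, ?_, ?_, by rw [Quaternion.normSq_star]; exact h5⟩
  · rw [Quaternion.imI_star]; omega
  · rw [Quaternion.imJ_star]; omega
  · rw [Quaternion.imK_star]; omega

theorem star_VV (m : ℕ) {a : H} (h : a ∈ VV m) : star a ∈ VV m := by
  obtain ⟨h0, h1, h2, h3, h4, h5⟩ := h
  refine ⟨by simpa using h0, by simpa using h1, ?_, ?_, ?_, by rw [Quaternion.normSq_star]; exact h5⟩
  · rw [Quaternion.imI_star]; omega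
  · rw [Quaternion.imJ_star]; omega
  · rw [Quaternion.imK_star]; omega

/-- Conjugation on `AA l`. -/
def conjA (l : ℕ) : Equiv.Perm (AA l) where
  toFun a := ⟨star a, star_AA l a.2⟩
  invFun a := ⟨star a, star_AA l a.2⟩
  left_inv a := Subtype.ext (star_star _)
  right_inv a := Subtype.ext (star_star _)

/-- Conjugation on `VV m`. -/
def conjV (m : ℕ) : Equiv.Perm (VV m) where
  toFun a := ⟨star a, star_VV m a.2⟩
  invFun a := ⟨star a, star_VV m a.2⟩
  left_inv a := Subtype.ext (star_star _)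
  right_inv a := Subtype.ext (star_star _)

theorem conjA_val {l : ℕ} (a : AA l) : ((conjA l a : AA l) : H) = star (a : H) := rfl

theorem conjV_val {m : ℕ} (a : VV m) : ((conjV m a : VV m) : H) = star (a : H) := rfl

/-- The orbits of the dihedral group on `VV m`. -/
abbrev QV (m : ℕ) := MulAction.orbitRel.Quotient G (VV m)

end Pool.Agent.TQS
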