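import Mathlib

/-!
The sign of the permutation of the projective line over a finite field of odd characteristic
induced by an invertible matrix is the quadratic character of the determinant.
-/

namespace Pool.Agent.TQS.Tau

open OnePoint

set_option linter.unusedSectionVars false

section SGN

variable {F : Type} [Field F] [Fintype F] [DecidableEq F]

noncomputable instance : Fintype (OnePoint F) := inferInstanceAs (Fintype (Option F))

noncomputable instance : DecidableEq (OnePoint F) := Classical.decEq _

/-- The sign of the permutation of the projective line given by an invertible matrix. -/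
noncomputable def sg : GL (Fin 2) F →* ℤˣ :=
  Equiv.Perm.sign.comp (MulAction.toPermHom (GL (Fin 2) F) (OnePoint F))

/-- The matrix `diag(a, 1)`. -/
noncomputable def dg : F →* Matrix (Fin 2) (Fin 2) F where
  toFun a := !![a, 0; 0, 1]
  map_one' := by
    ext i j
    fin_cases i <;> fin_cases j <;> simp
  map_mul' a b := by
    ext i j
    fin_cases i <;> fin_cases j <;> simp [Matrix.mul_apply]

theorem dg_smul (a : Fˣ) (x : F) :
    (Units.map dg a : GL (Fin 2) F) • (x : OnePoint F) = ((a * x : F) : OnePoint F) := by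
  rw [OnePoint.smul_some_eq_ite]
  simp [dg]

theorem dg_smul_infty (a : Fˣ) :
    (Units.map dg a : GL (Fin 2) F) • (∞ : OnePoint F) = ∞ := by
  rw [OnePoint.smul_infty_eq_ite]
  simp [dg]

theorem dg_pow_smul (a : Fˣ) (n : ℤ) (x : F) :
    ((MulAction.toPermHom (GL (Fin 2) F) (OnePoint F) (Units.map dg a)) ^ n) (x : OnePoint F) =
      (((a ^ n : Fˣ) * x : F) : OnePoint F) := by
  rw [← map_zpow, ← map_zpow]
  exact dg_smul _ _

theorem card_units_even (hF : ringChar F ≠ 2) : Even (Fintype.card Fˣ) := by
  rw [Fintype.card_units]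
  have := FiniteField.odd_card_of_char_ne_two hF
  rw [Nat.even_iff]
  omega

theorem gen_ne_one (hF : ringChar F ≠ 2) (g : Fˣ) (hg : ∀ x : Fˣ, x ∈ Subgroup.zpowers g) :
    g ≠ 1 := by
  rintro rfl
  have h1 : Fintype.card Fˣ = 1 := by
    rw [Fintype.card_eq_one_iff]
    refine ⟨1, fun y => ?_⟩
    have := hg y
    simpa using this
  have h2 := card_units_even hF
  rw [h1] at h2
  exact absurd h2 (by decide)

theorem sg_generator (hF : ringChar F ≠ 2) (g : Fˣ) (hg : ∀ x : Fˣ, x ∈ Subgroup.zpowers g) :
    sg (Units.map dg g : GL (Fin 2) F) = -1 := by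
  set f : Equiv.Perm (OnePoint F) :=
    MulAction.toPermHom (GL (Fin 2) F) (OnePoint F) (Units.map dg g) with hf
  have hfx : ∀ x : F, f (x : OnePoint F) = ((g * x : F) : OnePoint F) := fun x => dg_smul g x
  have hfi : f (∞ : OnePoint F) = ∞ := dg_smul_infty g
  have hg1 := gen_ne_one hF g hg
  have hne : ∀ x : F, x ≠ 0 → f (x : OnePoint F) ≠ (x : OnePoint F) := by
    intro x hx h
    rw [hfx, OnePoint.coe_eq_coe] at h
    apply hg1
    have h2 : ((g : F) - 1) * x = 0 := by linear_combination h
    rcases mul_eq_zero.1 h2 with h3 | h3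
    · ext
      simpa using sub_eq_zero.1 h3
    · exact absurd h3 hx
  have hcyc : f.IsCycle := by
    refine ⟨((1 : F) : OnePoint F), hne 1 one_ne_zero, ?_⟩
    intro y hy
    induction y using OnePoint.rec with
    | infty => exact absurd hfi hy
    | coe y =>
      have hy0 : y ≠ 0 := by
        rintro rfl
        apply hy
        rw [hfx, mul_zero]
      obtain ⟨n, hn⟩ := Subgroup.mem_zpowers_iff.1 (hg (Units.mk0 y hy0))
      refine ⟨n, ?_⟩
      rw [hf, dg_pow_smul, hn]
      simp
  have hsupp : f.support.card = Fintype.card Fˣ := by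
    have e : f.support = (Finset.univ : Finset Fˣ).image (fun u : Fˣ => ((u : F) : OnePoint F)) := by
      ext y
      rw [Equiv.Perm.mem_support, Finset.mem_image]
      constructor
      · intro hy
        induction y using OnePoint.rec with
        | infty => exact absurd hfi hy
        | coe y =>
          have hy0 : y ≠ 0 := by
            rintro rfl
            apply hy
            rw [hfx, mul_zero]
          exact ⟨Units.mk0 y hy0, Finset.mem_univ _, rfl⟩
      · rintro ⟨u, _, rfl⟩
        exact hne u u.ne_zero
    rw [e, Finset.card_image_of_injective, Finset.card_univ]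
    intro u v huv
    exact Units.ext (OnePoint.coe_injective huv)
  show Equiv.Perm.sign f = -1
  rw [hcyc.sign, hsupp, (card_units_even hF).neg_one_pow]

theorem quad_generator (hF : ringChar F ≠ 2) (g : Fˣ) (hg : ∀ x : Fˣ, x ∈ Subgroup.zpowers g) :
    quadraticChar F (g : F) = -1 := by
  rw [quadraticChar_neg_one_iff_not_isSquare]
  rintro ⟨r, hr⟩
  have hr0 : r ≠ 0 := by
    rintro rfl
    rw [mul_zero] at hr
    exact g.ne_zero hr
  have h1 : g = (Units.mk0 r hr0) ^ 2 := by
    ext
    rw [hr]
    simp [pow_two]
  have h2 : g ^ (Fintype.card Fˣ / 2) = 1 := by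
    rw [h1, ← pow_mul, Nat.mul_div_cancel' (card_units_even hF).two_dvd, pow_card_eq_one]
  have h3 : orderOf g = Fintype.card Fˣ := orderOf_eq_card_of_forall_mem_zpowers hg |>.trans
    (by rw [Nat.card_eq_fintype_card])
  have h4 := orderOf_dvd_of_pow_eq_one h2
  rw [h3] at h4
  have h5 : 0 < Fintype.card Fˣ := Fintype.card_pos
  have h6 := (card_units_even hF)
  rw [Nat.even_iff] at h6
  have h7 := Nat.le_of_dvd (by omega) h4
  omega

/-- Zolotarev's lemma on the projective line. -/
theorem sg_dg (hF : ringChar F ≠ 2) (a : Fˣ) :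
    ((sg (Units.map dg a : GL (Fin 2) F) : ℤˣ) : ℤ) = quadraticChar F (a : F) := by
  obtain ⟨g, hg⟩ := IsCyclic.exists_generator (α := Fˣ)
  obtain ⟨n, rfl⟩ := Subgroup.mem_zpowers_iff.1 (hg a)
  have h1 : ((sg (Units.map dg g : GL (Fin 2) F) : ℤˣ) : ℤ) = quadraticChar F (g : F) := by
    rw [sg_generator hF g hg, quad_generator hF g hg]
    rfl
  have h2 : sg (Units.map dg g : GL (Fin 2) F) = (quadraticChar F).toUnitHom g := by
    ext
    rw [h1, MulChar.coe_toUnitHom]
  rw [map_zpow, map_zpow, h2, ← map_zpow, MulChar.coe_toUnitHom]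

theorem pow_odd_eq_one (u : ℤˣ) (n : ℕ) (hn : Odd n) (h : u ^ n = 1) : u = 1 := by
  rcases Int.units_eq_one_or u with h1 | h1
  · exact h1
  · rw [h1, hn.neg_one_pow] at h
    exact absurd h (by decide)

theorem transvec_pow (t : Matrix.TransvectionStruct (Fin 2) F) (n : ℕ) :
    t.toMatrix ^ n = Matrix.transvection t.i t.j (n * t.c) := by
  induction n with
  | zero => simp
  | succ n ih =>
    rw [pow_succ, ih]
    show Matrix.transvection t.i t.j _ * Matrix.transvection t.i t.j t.c = _
    rw [Matrix.transvection_mul_transvection_same _ _ t.hij]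
    congr 1
    push_cast
    ring

theorem mk_eq {M : Matrix (Fin 2) (Fin 2) F} (h : M.det ≠ 0) (g : GL (Fin 2) F)
    (hg : (g : Matrix (Fin 2) (Fin 2) F) = M) :
    Matrix.GeneralLinearGroup.mkOfDetNeZero M h = g := by
  ext i j
  rw [hg]
  rfl

/-- The sign of the permutation of the projective line given by an invertible matrix is the
quadratic character of the determinant. -/
theorem sg_eq (hF : ringChar F ≠ 2) (g : GL (Fin 2) F) :
    ((sg g : ℤˣ) : ℤ) = quadraticChar F (g : Matrix (Fin 2) (Fin 2) F).det := by
  have key : ∀ M : Matrix (Fin 2) (Fin 2) F, M.det ≠ 0 → ∀ h : M.det ≠ 0,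
      ((sg (Matrix.GeneralLinearGroup.mkOfDetNeZero M h) : ℤˣ) : ℤ) = quadraticChar F M.det := by
    intro M hM
    refine Matrix.diagonal_transvection_induction_of_det_ne_zero
      (P := fun M => ∀ h : M.det ≠ 0,
      ((sg (Matrix.GeneralLinearGroup.mkOfDetNeZero M h) : ℤˣ) : ℤ) = quadraticChar F M.det)
      M hM ?_ ?_ ?_
    · intro D hD h
      have hD' : D 0 * D 1 ≠ 0 := by
        rw [Matrix.det_diagonal, Fin.prod_univ_two] at hD
        exact hD
      have h0 : D 0 ≠ 0 := left_ne_zero_of_mul hD'
      have h1 : D 1 ≠ 0 := right_ne_zero_of_mul hD'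
      have e : MulAction.toPermHom (GL (Fin 2) F) (OnePoint F)
          (Matrix.GeneralLinearGroup.mkOfDetNeZero (Matrix.diagonal D) h)
          = MulAction.toPermHom (GL (Fin 2) F) (OnePoint F)
          (Units.map dg (Units.mk0 (D 0 / D 1) (div_ne_zero h0 h1))) := by
        ext x
        induction x using OnePoint.rec with
        | infty =>
          show (Matrix.GeneralLinearGroup.mkOfDetNeZero (Matrix.diagonal D) h) • (∞ : OnePoint F)
            = (Units.map dg (Units.mk0 (D 0 / D 1) (div_ne_zero h0 h1)) : GL (Fin 2) F) •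
              (∞ : OnePoint F)
          rw [dg_smul_infty, OnePoint.smul_infty_eq_ite, if_pos]
          show (Matrix.diagonal D) 1 0 = 0
          simp
        | coe x =>
          show (Matrix.GeneralLinearGroup.mkOfDetNeZero (Matrix.diagonal D) h) • (x : OnePoint F)
            = (Units.map dg (Units.mk0 (D 0 / D 1) (div_ne_zero h0 h1)) : GL (Fin 2) F) •
              (x : OnePoint F)
          rw [dg_smul, OnePoint.smul_some_eq_ite, if_neg]
          · show ((((Matrix.diagonal D) 0 0 * x + (Matrix.diagonal D) 0 1)
              / ((Matrix.diagonal D) 1 0 * x + (Matrix.diagonal D) 1 1) : F) : OnePoint F) = _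
            congr 1
            simp
            ring
          · show ¬ ((Matrix.diagonal D) 1 0 * x + (Matrix.diagonal D) 1 1 = 0)
            simpa using h1
      have e2 : sg (Matrix.GeneralLinearGroup.mkOfDetNeZero (Matrix.diagonal D) h)
          = sg (Units.map dg (Units.mk0 (D 0 / D 1) (div_ne_zero h0 h1)) : GL (Fin 2) F) := by
        show Equiv.Perm.sign _ = Equiv.Perm.sign _
        rw [e]
      rw [e2, sg_dg hF, Matrix.det_diagonal, Fin.prod_univ_two, Units.val_mk0]
      have e3 : D 0 * D 1 = (D 0 / D 1) * (D 1) ^ 2 := by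
        field_simp
      rw [e3, map_mul, quadraticChar_sq_one' h1, mul_one]
    · intro t h
      rw [t.det, map_one]
      have h1 : (Matrix.GeneralLinearGroup.mkOfDetNeZero t.toMatrix h) ^ (ringChar F) = 1 := by
        ext i j
        rw [Units.val_pow_eq_pow_val]
        show (t.toMatrix ^ (ringChar F)) i j = _
        rw [transvec_pow, CharP.cast_eq_zero, zero_mul, Matrix.transvection_zero]
        rfl
      have h2 : (sg (Matrix.GeneralLinearGroup.mkOfDetNeZero t.toMatrix h)) ^ (ringChar F) = 1 := by
        rw [← map_pow, h1, map_one]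
      have h3 : Odd (ringChar F) := by
        rcases (CharP.char_is_prime F (ringChar F)).eq_two_or_odd' with h4 | h4
        · exact absurd h4 hF
        · exact h4
      rw [pow_odd_eq_one _ _ h3 h2]
      rfl
    · intro A B hA hB ihA ihB h
      have e : Matrix.GeneralLinearGroup.mkOfDetNeZero (A * B) h
          = Matrix.GeneralLinearGroup.mkOfDetNeZero A hA
            * Matrix.GeneralLinearGroup.mkOfDetNeZero B hB := by
        ext i j
        rfl
      rw [e, map_mul, Units.val_mul, ihA hA, ihB hB, Matrix.det_mul, map_mul]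
  have hdet : (g : Matrix (Fin 2) (Fin 2) F).det ≠ 0 := by
    have := g.det.ne_zero
    simpa using this
  have := key g hdet hdet
  rw [mk_eq hdet g rfl] at this
  exact this

end SGN

end Pool.Agent.TQS.Tau
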