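import Pool.Agent.TQS.Base
import Pool.Agent.TQS.PSgn

/-!
For a prime `l = 7 mod 8` the quaternions in `AA l` correspond to the points of the projective
line over the field with `l` elements, and a quaternion of norm prime to `l` permutes them.
-/

namespace Pool.Agent.TQS.Tau

open OnePoint

section mat

variable {F : Type} [Field F]

/-- The image of an integral quaternion in the two by two matrices over a field `F`,
for `a, b` in `F` with `a^2 + b^2 = -1`. -/
def phm (a b : F) (x : H) : Matrix (Fin 2) (Fin 2) F :=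
  !![(x.re : F) + a * x.imJ - b * x.imK, -(x.imI : F) + b * x.imJ + a * x.imK;
     (x.imI : F) + b * x.imJ + a * x.imK, (x.re : F) - a * x.imJ + b * x.imK]

theorem phm_mul {a b : F} (h : a ^ 2 + b ^ 2 = -1) (x y : H) :
    phm a b (x * y) = phm a b x * phm a b y := by
  ext i j
  fin_cases i <;> fin_cases j <;>
    simp [phm, Matrix.mul_apply, Quaternion.re_mul, Quaternion.imI_mul, Quaternion.imJ_mul,
      Quaternion.imK_mul] 
  · linear_combination (-(x.imJ : F) * y.imJ - x.imK * y.imK) * h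
  · linear_combination (-(x.imJ : F) * y.imK + x.imK * y.imJ) * h
  · linear_combination ((x.imJ : F) * y.imK - x.imK * y.imJ) * h
  · linear_combination (-(x.imJ : F) * y.imJ - x.imK * y.imK) * h

theorem phm_det {a b : F} (h : a ^ 2 + b ^ 2 = -1) (x : H) :
    (phm a b x).det = ((Quaternion.normSq x : ℤ) : F) := by
  rw [phm, Matrix.det_fin_two_of, Quaternion.normSq_def']
  push_cast
  linear_combination (-(x.imJ : F) ^ 2 - (x.imK : F) ^ 2) * h

theorem phm_star (a b : F) (x : H) : phm a b (star x) = (phm a b x).adjugate := by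
  rw [phm, phm, Matrix.adjugate_fin_two_of]
  ext i j
  fin_cases i <;> fin_cases j <;> simp <;> ring

theorem orth_aux {r0 r1 s0 s1 v0 v1 : F} (hv : v0 ≠ 0 ∨ v1 ≠ 0) (hr : r0 * v0 + r1 * v1 = 0)
    (hs : s0 * v0 + s1 * v1 = 0) : r0 * s1 - r1 * s0 = 0 := by
  rcases hv with h | h
  · have : v0 * (r0 * s1 - r1 * s0) = 0 := by linear_combination s1 * hr - r1 * hs
    exact (mul_eq_zero.1 this).resolve_left h
  · have : v1 * (r0 * s1 - r1 * s0) = 0 := by linear_combination r0 * hs - s0 * hr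
    exact (mul_eq_zero.1 this).resolve_left h

theorem mul_adj_zero {M N : Matrix (Fin 2) (Fin 2) F} {v : Fin 2 → F} (hv : v ≠ 0)
    (hM : M.mulVec v = 0) (hN : N.mulVec v = 0) : M * N.adjugate = 0 := by
  have hv' : v 0 ≠ 0 ∨ v 1 ≠ 0 := by
    by_contra h
    push Not at h
    apply hv
    ext i
    fin_cases i
    · exact h.1
    · exact h.2
  have hM' : ∀ i, M i 0 * v 0 + M i 1 * v 1 = 0 := by
    intro i
    have := congrFun hM i
    simpa [Matrix.mulVec, dotProduct, Fin.sum_univ_two] using this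
  have hN' : ∀ i, N i 0 * v 0 + N i 1 * v 1 = 0 := by
    intro i
    have := congrFun hN i
    simpa [Matrix.mulVec, dotProduct, Fin.sum_univ_two] using this
  rw [Matrix.adjugate_fin_two]
  ext i j
  fin_cases j
  · have := orth_aux hv' (hM' i) (hN' 1)
    simp [Matrix.mul_apply, Fin.sum_univ_two]
    linear_combination this
  · have := orth_aux hv' (hM' i) (hN' 0)
    simp [Matrix.mul_apply, Fin.sum_univ_two]
    linear_combination -this

/-- A nonzero vector on the line given by a point of the projective line. -/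
def vec : OnePoint F → Fin 2 → F
  | ∞ => ![1, 0]
  | (x : F) => ![x, 1]

theorem vec_infty : vec (∞ : OnePoint F) = ![1, 0] := rfl

theorem vec_coe (x : F) : vec (x : OnePoint F) = ![x, 1] := rfl

theorem vec_ne (x : OnePoint F) : vec x ≠ 0 := by
  intro h
  induction x using OnePoint.rec with
  | infty =>
    have := congrFun h 0
    simp [vec_infty] at this
  | coe x =>
    have := congrFun h 1
    simp [vec_coe] at this

theorem exists_pt {M : Matrix (Fin 2) (Fin 2) F} (hM : M.det = 0) :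
    ∃ x : OnePoint F, M.mulVec (vec x) = 0 := by
  classical
  obtain ⟨v, hv, h⟩ := Matrix.exists_mulVec_eq_zero_iff.2 hM
  have h0 : M 0 0 * v 0 + M 0 1 * v 1 = 0 := by
    have := congrFun h 0
    simpa [Matrix.mulVec, dotProduct, Fin.sum_univ_two] using this
  have h1 : M 1 0 * v 0 + M 1 1 * v 1 = 0 := by
    have := congrFun h 1
    simpa [Matrix.mulVec, dotProduct, Fin.sum_univ_two] using this
  by_cases hv1 : v 1 = 0
  · have hv0 : v 0 ≠ 0 := by
      intro h2
      apply hv
      ext i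
      fin_cases i
      · exact h2
      · exact hv1
    refine ⟨∞, ?_⟩
    rw [vec_infty]
    rw [hv1, mul_zero, add_zero] at h0 h1
    have e0 := (mul_eq_zero.1 h0).resolve_right hv0
    have e1 := (mul_eq_zero.1 h1).resolve_right hv0
    ext i
    fin_cases i <;> simp [Matrix.mulVec, dotProduct, Fin.sum_univ_two, e0, e1]
  · refine ⟨((v 0 / v 1 : F) : OnePoint F), ?_⟩
    rw [vec_coe]
    ext i
    fin_cases i
    · simp [Matrix.mulVec, dotProduct, Fin.sum_univ_two]
      field_simp
      linear_combination h0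
    · simp [Matrix.mulVec, dotProduct, Fin.sum_univ_two]
      field_simp
      linear_combination h1

theorem vec_smul [DecidableEq F] (g : GL (Fin 2) F) (x : OnePoint F) :
    ∃ s : F, s ≠ 0 ∧ (g : Matrix (Fin 2) (Fin 2) F).mulVec (vec x) = s • vec (g • x) := by
  have hdet : (g : Matrix (Fin 2) (Fin 2) F).det ≠ 0 := by
    have := g.det.ne_zero
    simpa using this
  rw [Matrix.det_fin_two] at hdet
  induction x using OnePoint.rec with
  | infty =>
    rw [OnePoint.smul_infty_eq_ite]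
    by_cases h : (g : Matrix (Fin 2) (Fin 2) F) 1 0 = 0
    · rw [if_pos h, vec_infty]
      refine ⟨(g : Matrix (Fin 2) (Fin 2) F) 0 0, ?_, ?_⟩
      · rintro h2
        rw [h, h2] at hdet
        simp at hdet
      · ext i
        fin_cases i <;> simp [Matrix.mulVec, dotProduct, Fin.sum_univ_two, h]
    · rw [if_neg h, vec_infty, vec_coe]
      refine ⟨(g : Matrix (Fin 2) (Fin 2) F) 1 0, h, ?_⟩
      ext i
      fin_cases i
      · simp [Matrix.mulVec, dotProduct, Fin.sum_univ_two]
        field_simp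
      · simp [Matrix.mulVec, dotProduct, Fin.sum_univ_two]
  | coe x =>
    rw [OnePoint.smul_some_eq_ite]
    by_cases h : (g : Matrix (Fin 2) (Fin 2) F) 1 0 * x + (g : Matrix (Fin 2) (Fin 2) F) 1 1 = 0
    · rw [if_pos h, vec_infty, vec_coe]
      refine ⟨(g : Matrix (Fin 2) (Fin 2) F) 0 0 * x + (g : Matrix (Fin 2) (Fin 2) F) 0 1,
        ?_, ?_⟩
      · intro h2
        apply hdet
        linear_combination (g : Matrix (Fin 2) (Fin 2) F) 0 0 * h
          - (g : Matrix (Fin 2) (Fin 2) F) 1 0 * h2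
      · ext i
        fin_cases i
        · simp [Matrix.mulVec, dotProduct, Fin.sum_univ_two]
        · simp [Matrix.mulVec, dotProduct, Fin.sum_univ_two, h]
    · rw [if_neg h, vec_coe, vec_coe]
      refine ⟨_, h, ?_⟩
      ext i
      fin_cases i
      · simp only [Matrix.mulVec, dotProduct, Fin.sum_univ_two, Fin.zero_eta, Pi.smul_apply,
          Matrix.cons_val_zero, Matrix.cons_val_one, smul_eq_mul, mul_one]
        rw [mul_div_cancel₀ _ h]
      · simp [Matrix.mulVec, dotProduct, Fin.sum_univ_two]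

end mat

theorem phm_eq_zero {l : ℕ} [Fact l.Prime] (h2 : l ≠ 2) {a b : ZMod l} (h : a ^ 2 + b ^ 2 = -1)
    {x : H} (hx : phm a b x = 0) : ∃ u : H, x = (l : H) * u := by
  have e00 := congrFun (congrFun hx 0) 0
  have e01 := congrFun (congrFun hx 0) 1
  have e10 := congrFun (congrFun hx 1) 0
  have e11 := congrFun (congrFun hx 1) 1
  simp [phm] at e00 e01 e10 e11
  have h2' : (2 : ZMod l) ≠ 0 := by
    intro h3
    have h4 : ((2 : ℕ) : ZMod l) = 0 := by exact_mod_cast h3
    rw [ZMod.natCast_eq_zero_iff] at h4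
    exact h2 ((Nat.prime_dvd_prime_iff_eq (Fact.out : l.Prime) Nat.prime_two).1 h4)
  have r0 : (x.re : ZMod l) = 0 := by
    have : (2 : ZMod l) * x.re = 0 := by linear_combination e00 + e11
    exact (mul_eq_zero.1 this).resolve_left h2'
  have r1 : (x.imI : ZMod l) = 0 := by
    have : (2 : ZMod l) * x.imI = 0 := by linear_combination e10 - e01
    exact (mul_eq_zero.1 this).resolve_left h2'
  rw [r0] at e00
  rw [r1] at e10
  have r2 : (x.imJ : ZMod l) = 0 := by
    linear_combination (-a) * e00 - b * e10 + (x.imJ : ZMod l) * h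
  have r3 : (x.imK : ZMod l) = 0 := by
    linear_combination b * e00 - a * e10 + (x.imK : ZMod l) * h
  rw [ZMod.intCast_zmod_eq_zero_iff_dvd] at r0 r1 r2 r3
  obtain ⟨c0, h0⟩ := r0
  obtain ⟨c1, h1⟩ := r1
  obtain ⟨c2, h2⟩ := r2
  obtain ⟨c3, h3⟩ := r3
  refine ⟨⟨c0, c1, c2, c3⟩, ?_⟩
  ext <;> simp [h0, h1, h2, h3]


theorem int_mul_re (n : ℕ) (u : H) : ((n : H) * u).re = n * u.re := by
  simp

theorem normSq_natCast (n : ℕ) : Quaternion.normSq (n : H) = (n : ℤ) ^ 2 := by
  rw [Quaternion.normSq_def']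
  simp

theorem AA_normSq {l : ℕ} {a : H} (ha : a ∈ AA l) : Quaternion.normSq a = (l : ℤ) := ha.2.2.2.2.2

/-- A unit quaternion taking an element of `AA` to an element of `AA` is trivial. -/
theorem AA_unit {l l' : ℕ} {a b u : H} (ha : a ∈ AA l) (hb : b ∈ AA l')
    (hu : Quaternion.normSq u = 1) (h : a = u * b) : a = b := by
  obtain ⟨a0, a1, a2, a3, a4, -⟩ := ha
  obtain ⟨b0, b1, b2, b3, b4, -⟩ := hb
  have hre := congrArg QuaternionAlgebra.re h
  rw [Quaternion.re_mul] at hre
  rw [Quaternion.normSq_def'] at hu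
  have hpar : (u.imI + u.imJ + u.imK) % 2 = 0 := by
    obtain ⟨x0, hx0⟩ : ∃ x, b.re = 2 * x := ⟨b.re / 2, by omega⟩
    obtain ⟨x1, hx1⟩ : ∃ x, b.imI = 2 * x + 1 := ⟨b.imI / 2, by omega⟩
    obtain ⟨x2, hx2⟩ : ∃ x, b.imJ = 2 * x + 1 := ⟨b.imJ / 2, by omega⟩
    obtain ⟨x3, hx3⟩ : ∃ x, b.imK = 2 * x + 1 := ⟨b.imK / 2, by omega⟩
    have e : a.re = 2 * (u.re * x0 - u.imI * x1 - u.imJ * x2 - u.imK * x3)
        - (u.imI + u.imJ + u.imK) := by
      rw [hre, hx0, hx1, hx2, hx3]
      ring
    omega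
  have s1 := sq_nonneg u.re
  have s2 := sq_nonneg u.imI
  have s3 := sq_nonneg u.imJ
  have s4 := sq_nonneg u.imK
  have bd : ∀ z : ℤ, z ^ 2 ≤ 1 → z = -1 ∨ z = 0 ∨ z = 1 := by
    intro z hz
    have h1 : -1 ≤ z := by nlinarith
    have h2 : z ≤ 1 := by nlinarith
    omega
  have c0 := bd u.re (by linarith)
  have c1 := bd u.imI (by linarith)
  have c2 := bd u.imJ (by linarith)
  have c3 := bd u.imK (by linarith)
  have hall : u.imI = 0 ∧ u.imJ = 0 ∧ u.imK = 0 := by
    rcases c1 with e1 | e1 | e1 <;> rcases c2 with e2 | e2 | e2 <;>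
      rcases c3 with e3 | e3 | e3 <;> rw [e1, e2, e3] at hu hpar <;>
      first
        | (exact ⟨e1, e2, e3⟩)
        | (exfalso; omega)
  obtain ⟨e1, e2, e3⟩ := hall
  rw [e1, e2, e3] at hu hre
  have hu0 : u.re = 1 := by
    rcases c0 with e | e | e
    · rw [e] at hre
      exfalso
      linarith
    · rw [e] at hu
      exfalso
      norm_num at hu
    · exact e
  have hu1 : u = 1 := by
    ext
    · exact hu0
    · exact e1
    · exact e2
    · exact e3
  rw [h, hu1, one_mul]

/-- Two elements of `AA l` with `a (star b)` divisible by `l` are equal. -/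
theorem AA_eq_of_dvd {l : ℕ} (hl : 0 < l) {a b u : H} (ha : a ∈ AA l) (hb : b ∈ AA l)
    (h : a * star b = (l : H) * u) : a = b := by
  have hl0 : (l : ℤ) ≠ 0 := by exact_mod_cast hl.ne'
  have hlH : (l : H) ≠ 0 := by
    intro h0
    have h1 : ((l : H)).re = (0 : ℤ) := by rw [h0]; rfl
    rw [Quaternion.re_natCast] at h1
    exact hl0 h1
  have hN : Quaternion.normSq u = 1 := by
    have e := congrArg Quaternion.normSq h
    rw [map_mul, map_mul, Quaternion.normSq_star, AA_normSq ha, AA_normSq hb,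
      normSq_natCast] at e
    have : (l : ℤ) ^ 2 * Quaternion.normSq u = (l : ℤ) ^ 2 * 1 := by linear_combination -e
    exact mul_left_cancel₀ (pow_ne_zero 2 hl0) this
  have hab : a = u * b := by
    have e : a * (star b * b) = (l : H) * u * b := by rw [← mul_assoc, h]
    rw [Quaternion.star_mul_self, AA_normSq hb] at e
    have e2 : a * (((l : ℤ) : ℤ) : H) = (l : H) * (u * b) := by
      rw [← mul_assoc, ← e]
      rfl
    apply mul_left_cancel₀ hlH
    rw [← e2]
    have : (((l : ℤ) : ℤ) : H) = (l : H) := by norm_cast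
    rw [this, Nat.cast_comm]
  exact AA_unit ha hb hN hab


theorem phm_natCast {l : ℕ} (a b : ZMod l) (u : H) [Fact l.Prime] :
    phm a b ((l : H) * u) = 0 := by
  ext i j
  fin_cases i <;> fin_cases j <;> simp [phm]

theorem dvd_of_coords {l : ℕ} {x : H} (h0 : (l : ℤ) ∣ x.re) (h1 : (l : ℤ) ∣ x.imI)
    (h2 : (l : ℤ) ∣ x.imJ) (h3 : (l : ℤ) ∣ x.imK) : ∃ u : H, x = (l : H) * u := by
  obtain ⟨c0, h0⟩ := h0
  obtain ⟨c1, h1⟩ := h1
  obtain ⟨c2, h2⟩ := h2
  obtain ⟨c3, h3⟩ := h3
  refine ⟨⟨c0, c1, c2, c3⟩, ?_⟩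
  ext <;> simp [h0, h1, h2, h3]

/-- The point of the projective line attached to an element of `AA l`. -/
theorem exists_point {l : ℕ} [Fact l.Prime] {a b : ZMod l} (h : a ^ 2 + b ^ 2 = -1) (x : AA l) :
    ∃ y : OnePoint (ZMod l), (phm a b (x : H)).mulVec (vec y) = 0 := by
  apply exists_pt
  rw [phm_det h, AA_normSq x.2]
  simp

/-- If the kernels of the images of `w` and of `x` in `AA l` meet then `w (star x)` is divisible
by `l`. -/
theorem dvd_of_kernel {l : ℕ} [Fact l.Prime] (h2 : l ≠ 2) {a b : ZMod l}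
    (h : a ^ 2 + b ^ 2 = -1) {w x : H} {y : OnePoint (ZMod l)}
    (hw : (phm a b w).mulVec (vec y) = 0) (hx : (phm a b x).mulVec (vec y) = 0) :
    ∃ u : H, w * star x = (l : H) * u := by
  apply phm_eq_zero h2 h
  rw [phm_mul h, phm_star]
  exact mul_adj_zero (vec_ne y) hw hx

theorem sgn_eq_sign {α : Type*} [Fintype α] [DecidableEq α] (s : Equiv.Perm α) :
    sgn s = Equiv.Perm.sign s := by
  unfold sgn
  have h1 : Fintype.ofFinite α = ‹Fintype α› := Subsingleton.elim _ _
  have h2 : (fun a b : α => Classical.propDecidable (a = b)) = ‹DecidableEq α› :=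
    Subsingleton.elim _ _
  rw [h1, h2]

theorem sgn_permCongr {α β : Type*} [Finite α] [Finite β] (e : α ≃ β) (s : Equiv.Perm α) :
    sgn (e.permCongr s) = sgn s := by
  classical
  have : Fintype α := Fintype.ofFinite α
  have : Fintype β := Fintype.ofFinite β
  rw [sgn_eq_sign, sgn_eq_sign, Equiv.Perm.sign_permCongr]

theorem chi_eq {l : ℕ} [Fact l.Prime] (n : ℤ) (hn : ¬ (l : ℤ) ∣ n) :
    ((chi l n : ℤˣ) : ℤ) = quadraticChar (ZMod l) ((n : ℤ) : ZMod l) := by
  have hn' : ((n : ℤ) : ZMod l) ≠ 0 := by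
    rw [Ne, ZMod.intCast_zmod_eq_zero_iff_dvd]
    exact hn
  unfold chi
  by_cases hs : IsSquare ((n : ℤ) : ZMod l)
  · rw [if_pos hs, (quadraticChar_one_iff_isSquare hn').2 hs]
    rfl
  · rw [if_neg hs, quadraticChar_neg_one_iff_not_isSquare.2 hs]
    rfl

/-- Right multiplication by a quaternion `c` of norm prime to `l` permutes `AA l`, and the sign of
the permutation is the quadratic character of the norm of `c`. -/
theorem exists_tau0 (l : ℕ) [Fact l.Prime] [Finite (AA l)] (hl : l % 8 = 7)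
    (hcard : Nat.card (AA l) = l + 1) (c : H) (hc : ¬ (l : ℤ) ∣ Quaternion.normSq c) :
    ∃ t : Equiv.Perm (AA l), sgn t = chi l (Quaternion.normSq c) ∧
      ∀ a : AA l, ∃ u : H, (t a : H) * c * star (a : H) = (l : H) * u := by
  classical
  have h2 : l ≠ 2 := by
    rintro rfl
    omega
  obtain ⟨a, b, hab⟩ := ZMod.sq_add_sq l (-1)
  choose pt hpt using exists_point (l := l) hab
  have hinj : Function.Injective pt := by
    intro x y hxy
    obtain ⟨u, hu⟩ := dvd_of_kernel h2 hab (hpt x) (by rw [hxy]; exact hpt y)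
    exact Subtype.ext (AA_eq_of_dvd (Fact.out : l.Prime).pos x.2 y.2 hu)
  have : Fintype (AA l) := Fintype.ofFinite _
  have hbij : Function.Bijective pt := by
    rw [Fintype.bijective_iff_injective_and_card]
    refine ⟨hinj, ?_⟩
    rw [← Nat.card_eq_fintype_card, hcard]
    show l + 1 = Fintype.card (Option (ZMod l))
    rw [Fintype.card_option, ZMod.card]
  set e : AA l ≃ OnePoint (ZMod l) := Equiv.ofBijective pt hbij with he
  have hdet : (phm a b c).det ≠ 0 := by
    rw [phm_det hab, Ne, ZMod.intCast_zmod_eq_zero_iff_dvd]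
    exact hc
  set g : GL (Fin 2) (ZMod l) := Matrix.GeneralLinearGroup.mkOfDetNeZero _ hdet with hg
  set s : Equiv.Perm (OnePoint (ZMod l)) :=
    MulAction.toPermHom (GL (Fin 2) (ZMod l)) (OnePoint (ZMod l)) g with hs
  refine ⟨e.symm.permCongr s, ?_, ?_⟩
  · rw [sgn_permCongr, sgn_eq_sign]
    ext
    rw [chi_eq _ hc]
    have h := sg_eq (F := ZMod l) (by rw [ZMod.ringChar_zmod_n]; exact h2) g
    have h3 : (g : Matrix (Fin 2) (Fin 2) (ZMod l)).det
        = ((Quaternion.normSq c : ℤ) : ZMod l) := phm_det hab c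
    rw [h3] at h
    rw [← h]
    rfl
  · intro x
    have hex : e x = pt x := rfl
    have h1 : (phm a b ((e.symm.permCongr s x : AA l) : H)).mulVec (vec (g • e x)) = 0 := by
      have h4 := hpt (e.symm.permCongr s x)
      have h5 : pt (e.symm.permCongr s x) = g • e x := by
        show e (e.symm.permCongr s x) = g • e x
        rw [Equiv.permCongr_apply]
        simp
        rfl
      rw [h5] at h4
      exact h4
    obtain ⟨r, hr, h6⟩ := vec_smul g (e x)
    have h7 : (phm a b (((e.symm.permCongr s x : AA l) : H) * c)).mulVec (vec (e x)) = 0 := by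
      rw [phm_mul hab, ← Matrix.mulVec_mulVec]
      have h8 : (phm a b c).mulVec (vec (e x)) = r • vec (g • e x) := h6
      rw [h8, Matrix.mulVec_smul, h1, smul_zero]
    exact dvd_of_kernel h2 hab h7 (by rw [hex]; exact hpt x)


theorem tau_uniq (l : ℕ) [Fact l.Prime] (hl : l % 8 = 7) (c : H)
    (hc : ¬ (l : ℤ) ∣ Quaternion.normSq c) {a a1 a2 : H} (ha : a ∈ AA l) (ha1 : a1 ∈ AA l)
    (ha2 : a2 ∈ AA l) (h1 : ∃ u : H, a1 * c * star a = (l : H) * u)
    (h2 : ∃ u : H, a2 * c * star a = (l : H) * u) : a1 = a2 := by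
  have hl2 : l ≠ 2 := by
    rintro rfl
    omega
  have hl0 : (l : ℤ) ≠ 0 := by
    have := (Fact.out : l.Prime).ne_zero
    exact_mod_cast this
  obtain ⟨x, y, hxy⟩ := ZMod.sq_add_sq l (-1)
  have hw : phm x y (c * star a) ≠ 0 := by
    intro h0
    obtain ⟨u, hu⟩ := phm_eq_zero hl2 hxy h0
    apply hc
    have e := congrArg Quaternion.normSq hu
    rw [map_mul, map_mul, Quaternion.normSq_star, AA_normSq ha, normSq_natCast] at e
    refine ⟨Quaternion.normSq u, ?_⟩
    have : (l : ℤ) * Quaternion.normSq c = l * (l * Quaternion.normSq u) := by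
      linear_combination e
    exact mul_left_cancel₀ hl0 this
  have hv : ∃ v : Fin 2 → ZMod l, (phm x y (c * star a)).mulVec v ≠ 0 := by
    by_contra hcon
    push Not at hcon
    apply hw
    ext i j
    have h3 := congrFun (hcon (Pi.single j 1)) i
    rw [Matrix.mulVec_single_one] at h3
    exact h3
  obtain ⟨v, hv⟩ := hv
  have key : ∀ b : H, (∃ u : H, b * c * star a = (l : H) * u) →
      (phm x y b).mulVec ((phm x y (c * star a)).mulVec v) = 0 := by
    rintro b ⟨u, hu⟩
    rw [Matrix.mulVec_mulVec, ← phm_mul hxy, ← mul_assoc, hu, phm_natCast, Matrix.zero_mulVec]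
  obtain ⟨u, hu⟩ : ∃ u : H, a1 * star a2 = (l : H) * u := by
    apply phm_eq_zero hl2 hxy
    rw [phm_mul hxy, phm_star]
    exact mul_adj_zero hv (key a1 h1) (key a2 h2)
  exact AA_eq_of_dvd (Fact.out : l.Prime).pos ha1 ha2 hu

end Pool.Agent.TQS.Tau

namespace Pool.Agent.TQS

open Quaternion

theorem exists_tau (l : ℕ) (hl : l.Prime) (h7 : l % 8 = 7) (hcard : Nat.card (AA l) = l + 1)
    (c : H) (hc : ¬ (l : ℤ) ∣ normSq c) :
    ∃ t : Equiv.Perm (AA l), sgn t = chi l (normSq c) ∧
      ∀ a : AA l, ∃ u : H, (t a : H) * c * star (a : H) = (l : H) * u := by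
  have : Fact l.Prime := ⟨hl⟩
  exact Tau.exists_tau0 l h7 hcard c hc

theorem tau_unique (l : ℕ) (hl : l.Prime) (h7 : l % 8 = 7) (c : H) (hc : ¬ (l : ℤ) ∣ normSq c)
    {a a₁ a₂ : H} (ha : a ∈ AA l) (h1 : a₁ ∈ AA l) (h2 : a₂ ∈ AA l)
    (e1 : ∃ u : H, a₁ * c * star a = (l : H) * u) (e2 : ∃ u : H, a₂ * c * star a = (l : H) * u) :
    a₁ = a₂ := by
  have : Fact l.Prime := ⟨hl⟩
  exact Tau.tau_uniq l h7 c hc ha h1 h2 e1 e2

end Pool.Agent.TQS
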