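import Pool.Agent.TQS.Base
import Pool.Agent.H24.Extract
import Pool.Agent.H24.Count

/-!
Project TQS, module Card: the sizes of `AA l` and `VV m`, from Jacobi's four squares theorem.
-/

namespace Pool.Agent.TQS

open Pool.Agent.H24 PowerSeries

/-- All integral quaternions of norm `m`. -/
def cardQ (m : ℕ) : Set H := {a | Quaternion.normSq a = (m : ℤ)}

/-- The quaternions of norm `m` whose real part is positive and of parity `r`, while the other
coordinates have the other parity. -/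
def cardP (r : ℤ) (m : ℕ) : Set H :=
  {a | 0 < a.re ∧ a.re % 2 = r ∧ a.imI % 2 = 1 - r ∧ a.imJ % 2 = 1 - r ∧ a.imK % 2 = 1 - r ∧
    Quaternion.normSq a = (m : ℤ)}

theorem card_normSq (a : H) :
    Quaternion.normSq a = a.re ^ 2 + a.imI ^ 2 + a.imJ ^ 2 + a.imK ^ 2 :=
  Quaternion.normSq_def' a

/-- Exchange the real part with another coordinate. -/
def cardSw (i : Fin 4) (a : H) : H :=
  match i with
  | 0 => a
  | 1 => ⟨a.imI, a.re, a.imJ, a.imK⟩
  | 2 => ⟨a.imJ, a.imI, a.re, a.imK⟩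
  | 3 => ⟨a.imK, a.imI, a.imJ, a.re⟩

theorem card_four (m : ℕ) (hm : m % 2 = 1) :
    Nat.card (cardQ m) = 8 * ArithmeticFunction.sigma 1 m := by
  have h1 := coeff_th_four_odd m hm
  have hF2 : Fib (fun p : ℤ × ℤ => sqN p.1 + sqN p.2) := Fib_sqN.prod Fib_sqN
  have hF := hF2.prod hF2
  have h4 : th ^ 4 = (th * th) * (th * th) := by ring
  have h5 : th * th = gen (fun p : ℤ × ℤ => sqN p.1 + sqN p.2) (fun _ => 1) := by
    rw [th, gen_mul Fib_sqN Fib_sqN]
    exact gen_congr (fun _ => rfl) (fun _ => by ring)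
  have h6 : th ^ 4 = gen (fun p : (ℤ × ℤ) × (ℤ × ℤ) =>
      (sqN p.1.1 + sqN p.1.2) + (sqN p.2.1 + sqN p.2.2)) (fun _ => 1) := by
    rw [h4, h5, gen_mul hF2 hF2]
    exact gen_congr (fun _ => rfl) (fun _ => by ring)
  rw [h6, coeff_gen_one hF] at h1
  have h7 : Nat.card (cardQ m) = Set.ncard {p : (ℤ × ℤ) × (ℤ × ℤ) |
      (sqN p.1.1 + sqN p.1.2) + (sqN p.2.1 + sqN p.2.2) = m} := by
    rw [Nat.card_coe_set_eq]
    refine Set.ncard_congr (fun a _ => ((a.re, a.imI), (a.imJ, a.imK))) ?_ ?_ ?_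
    · intro a h
      simp only [cardQ, Set.mem_ofPred_eq] at h ⊢
      rw [card_normSq] at h
      zify
      rw [sqN_cast, sqN_cast, sqN_cast, sqN_cast]
      linarith
    · intro a b _ _ h
      simp only [Prod.mk.injEq] at h
      obtain ⟨⟨h1, h2⟩, h3, h4⟩ := h
      ext <;> assumption
    · rintro ⟨⟨a, b⟩, c, d⟩ h
      simp only [Set.mem_ofPred_eq] at h
      refine ⟨⟨a, b, c, d⟩, ?_, rfl⟩
      simp only [cardQ, Set.mem_ofPred_eq]
      rw [card_normSq]
      zify at h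
      rw [sqN_cast, sqN_cast, sqN_cast, sqN_cast] at h
      simp only
      linarith
  rw [h7]
  exact_mod_cast h1

theorem cardQ_finite (m : ℕ) : (cardQ m).Finite := by
  have hF2 : Fib (fun p : ℤ × ℤ => sqN p.1 + sqN p.2) := Fib_sqN.prod Fib_sqN
  have hF := (hF2.prod hF2) m
  refine Set.Finite.of_injOn (f := fun a : H => ((a.re, a.imI), (a.imJ, a.imK))) ?_ ?_ hF
  · intro a h
    simp only [cardQ, Set.mem_ofPred_eq] at h ⊢
    rw [card_normSq] at h
    zify
    rw [sqN_cast, sqN_cast, sqN_cast, sqN_cast]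
    linarith
  · intro a _ b _ h
    simp only [Prod.mk.injEq] at h
    obtain ⟨⟨h1, h2⟩, h3, h4⟩ := h
    ext <;> assumption

theorem card_sq_mod (x : ℤ) : (x % 2 = 0 ∧ x ^ 2 % 4 = 0) ∨ (x % 2 = 1 ∧ x ^ 2 % 8 = 1) := by
  rcases Int.even_or_odd' x with ⟨j, rfl | rfl⟩
  · left
    constructor
    · omega
    · ring_nf
      omega
  · right
    constructor
    · omega
    · have := sq_odd_eq j
      omega

/-- The map from signs, positions and positive quaternions to all quaternions. -/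
def cardF (q : (Fin 4 × Bool) × H) : H := cardSw q.1.1 (if q.1.2 then q.2 else -q.2)

theorem card_eight (r : ℤ) (m : ℕ) (hr : r = 0 ∨ r = 1)
    (hpar : ∀ a b c d : ℤ, a ^ 2 + b ^ 2 + c ^ 2 + d ^ 2 = m →
      (a % 2 = r ∧ b % 2 = 1 - r ∧ c % 2 = 1 - r ∧ d % 2 = 1 - r) ∨
      (a % 2 = 1 - r ∧ b % 2 = r ∧ c % 2 = 1 - r ∧ d % 2 = 1 - r) ∨
      (a % 2 = 1 - r ∧ b % 2 = 1 - r ∧ c % 2 = r ∧ d % 2 = 1 - r) ∨
      (a % 2 = 1 - r ∧ b % 2 = 1 - r ∧ c % 2 = 1 - r ∧ d % 2 = r))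
    (hnz : ∀ b c d : ℤ, b ^ 2 + c ^ 2 + d ^ 2 = m → b % 2 = 1 - r → c % 2 = 1 - r →
      d % 2 = 1 - r → (0 : ℤ) % 2 = r → False) :
    Nat.card (cardQ m) = 8 * Nat.card (cardP r m) := by
  have h1 : Nat.card ((Fin 4 × Bool) × cardP r m) = 8 * Nat.card (cardP r m) := by
    rw [Nat.card_prod, Nat.card_prod]
    simp
  rw [← h1]
  symm
  refine Nat.card_congr (Equiv.ofBijective
    (fun q : (Fin 4 × Bool) × cardP r m => (⟨cardF (q.1, q.2.1), ?_⟩ : cardQ m)) ⟨?_, ?_⟩)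
  · obtain ⟨⟨i, s⟩, a, ha⟩ := q
    simp only [cardP, Set.mem_ofPred_eq] at ha
    obtain ⟨_, _, _, _, _, h⟩ := ha
    rw [card_normSq] at h
    simp only [cardQ, Set.mem_ofPred_eq, cardF]
    rw [card_normSq]
    fin_cases i <;> cases s <;> simp [cardSw] <;> linarith
  · rintro ⟨⟨i, s⟩, a, ha⟩ ⟨⟨j, t⟩, b, hb⟩ h
    simp only [Subtype.mk.injEq, cardF] at h
    simp only [cardP, Set.mem_ofPred_eq] at ha hb
    obtain ⟨ha0, ha1, ha2, ha3, ha4, _⟩ := ha
    obtain ⟨hb0, hb1, hb2, hb3, hb4, _⟩ := hb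
    rw [Quaternion.ext_iff] at h
    have key : i = j ∧ s = t ∧ a = b := by
      rw [Quaternion.ext_iff]
      fin_cases i <;> fin_cases j <;> cases s <;> cases t <;>
        simp [cardSw] at h ⊢ <;> omega
    obtain ⟨rfl, rfl, rfl⟩ := key
    rfl
  · rintro ⟨a, ha⟩
    simp only [cardQ, Set.mem_ofPred_eq] at ha
    rw [card_normSq] at ha
    have hsw : ∀ i : Fin 4, ∀ b : H, cardSw i b = a → b.re % 2 = r → b.imI % 2 = 1 - r →
        b.imJ % 2 = 1 - r → b.imK % 2 = 1 - r →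
        b.re ^ 2 + b.imI ^ 2 + b.imJ ^ 2 + b.imK ^ 2 = m →
        ∃ q : (Fin 4 × Bool) × cardP r m, cardF (q.1, q.2.1) = a := by
      intro i b hb h1 h2 h3 h4 h5
      rcases lt_trichotomy b.re 0 with h | h | h
      · refine ⟨((i, false), ⟨-b, ?_⟩), ?_⟩
        · simp only [cardP, Set.mem_ofPred_eq]
          rw [card_normSq]
          simp only [Quaternion.re_neg, Quaternion.imI_neg, Quaternion.imJ_neg,
            Quaternion.imK_neg]
          refine ⟨by omega, by omega, by omega, by omega, by omega, by linarith⟩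
        · simp [cardF, hb]
      · exfalso
        rw [h] at h1 h5
        exact hnz b.imI b.imJ b.imK (by linarith) h2 h3 h4 h1
      · refine ⟨((i, true), ⟨b, ?_⟩), ?_⟩
        · simp only [cardP, Set.mem_ofPred_eq]
          rw [card_normSq]
          exact ⟨h, h1, h2, h3, h4, h5⟩
        · simp [cardF, hb]
    have key : ∃ q : (Fin 4 × Bool) × cardP r m, cardF (q.1, q.2.1) = a := by
      rcases hpar _ _ _ _ ha with ⟨h1, h2, h3, h4⟩ | ⟨h1, h2, h3, h4⟩ | ⟨h1, h2, h3, h4⟩ |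
        ⟨h1, h2, h3, h4⟩
      · exact hsw 0 a rfl h1 h2 h3 h4 ha
      · exact hsw 1 (cardSw 1 a) rfl h2 h1 h3 h4 (by simp only [cardSw]; linarith)
      · exact hsw 2 (cardSw 2 a) rfl h3 h2 h1 h4 (by simp only [cardSw]; linarith)
      · exact hsw 3 (cardSw 3 a) rfl h4 h2 h3 h1 (by simp only [cardSw]; linarith)
    obtain ⟨q, hq⟩ := key
    exact ⟨q, Subtype.ext hq⟩

theorem VV_finite (m : ℕ) : (VV m).Finite :=
  (cardQ_finite m).subset (fun _ ha => ha.2.2.2.2.2)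

theorem AA_finite (l : ℕ) : (AA l).Finite :=
  (cardQ_finite l).subset (fun _ ha => ha.2.2.2.2.2)

theorem card_VV (m : ℕ) (h : m % 8 = 1) : Nat.card (VV m) = ArithmeticFunction.sigma 1 m := by
  have h1 : VV m = cardP 1 m := by
    ext a
    simp only [VV, cardP, Set.mem_ofPred_eq, sub_self]
  have h2 := card_eight 1 m (Or.inr rfl) (by
    intro a b c d he
    rcases card_sq_mod a with ⟨ha, ha'⟩ | ⟨ha, ha'⟩ <;> rcases card_sq_mod b with ⟨hb, hb'⟩ | ⟨hb, hb'⟩ <;>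
      rcases card_sq_mod c with ⟨hc, hc'⟩ | ⟨hc, hc'⟩ <;>
      rcases card_sq_mod d with ⟨hd, hd'⟩ | ⟨hd, hd'⟩ <;> simp [ha, hb, hc, hd] <;> omega)
    (by
      intro b c d _ _ _ _ h0
      norm_num at h0)
  have h3 := card_four m (by omega)
  rw [h1]
  omega

theorem card_AA (l : ℕ) (hl : l.Prime) (h : l % 8 = 7) : Nat.card (AA l) = l + 1 := by
  have h1 : AA l = cardP 0 l := by
    ext a
    simp only [AA, cardP, Set.mem_ofPred_eq, sub_zero]
  have h2 := card_eight 0 l (Or.inl rfl) (by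
    intro a b c d he
    rcases card_sq_mod a with ⟨ha, ha'⟩ | ⟨ha, ha'⟩ <;> rcases card_sq_mod b with ⟨hb, hb'⟩ | ⟨hb, hb'⟩ <;>
      rcases card_sq_mod c with ⟨hc, hc'⟩ | ⟨hc, hc'⟩ <;>
      rcases card_sq_mod d with ⟨hd, hd'⟩ | ⟨hd, hd'⟩ <;> simp [ha, hb, hc, hd] <;> omega)
    (by
      intro b c d he hb hc hd _
      rcases card_sq_mod b with ⟨hb', _⟩ | ⟨_, hb'⟩
      · omega
      rcases card_sq_mod c with ⟨hc', _⟩ | ⟨_, hc'⟩
      · omega
      rcases card_sq_mod d with ⟨hd', _⟩ | ⟨_, hd'⟩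
      · omega
      omega)
  have h3 := card_four l (by omega)
  have h4 : ArithmeticFunction.sigma 1 l = l + 1 := by
    rw [ArithmeticFunction.sigma_one_apply, hl.sum_divisors]
  rw [h4] at h3
  rw [h1]
  omega

theorem card_VV_mul (p q : ℕ) (hp : p.Prime) (hq : q.Prime) (hpq : p ≠ q) (h7 : p % 8 = 7)
    (h7' : q % 8 = 7) : Nat.card (VV (q * p)) = (q + 1) * (p + 1) := by
  have hm : (q * p) % 8 = 1 := by
    rw [Nat.mul_mod, h7, h7']
  rw [card_VV (q * p) hm]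
  have hc : Nat.Coprime q p := (Nat.coprime_primes hq hp).2 (Ne.symm hpq)
  have h := ArithmeticFunction.isMultiplicative_sigma (k := 1)
  rw [h.map_mul_of_coprime hc]
  have e : ∀ r : ℕ, r.Prime → ArithmeticFunction.sigma 1 r = r + 1 := by
    intro r hr
    rw [ArithmeticFunction.sigma_one_apply, hr.sum_divisors]
  rw [e p hp, e q hq]

end Pool.Agent.TQS
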