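import Pool.Agent.TQS.Base
import Pool.Agent.TQS.Card
import Pool.Agent.H24.Defs

/-!
Project TQS, module FIX (helper24): the number of quaternions of norm `m` with a vanishing
coordinate or with second and third coordinate equal up to sign, in terms of the numbers of
representations of `m` and `2 m` as sums of three squares. Here `m = 1 mod 8`.
-/

namespace Pool.Agent.TQS

open Pool.Agent.H24

/-- Representations of `m` by three squares. -/
def tS (m : ℕ) : Set (ℤ × ℤ × ℤ) := {p | (m : ℤ) = p.1 ^ 2 + p.2.1 ^ 2 + p.2.2 ^ 2}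

/-- Representations of `m` by `x^2+y^2+z^2` with `x` odd and positive, `y, z` even. -/
def tB (m : ℕ) : Set (ℤ × ℤ × ℤ) :=
  {p | 0 < p.1 ∧ p.1 % 2 = 1 ∧ p.2.1 % 2 = 0 ∧ p.2.2 % 2 = 0 ∧
    (m : ℤ) = p.1 ^ 2 + p.2.1 ^ 2 + p.2.2 ^ 2}

/-- Those with `0 < y < z`. -/
def tP (m : ℕ) : Set (ℤ × ℤ × ℤ) :=
  {p | 0 < p.1 ∧ p.1 % 2 = 1 ∧ p.2.1 % 2 = 0 ∧ p.2.2 % 2 = 0 ∧ 0 < p.2.1 ∧ p.2.1 < p.2.2 ∧
    (m : ℤ) = p.1 ^ 2 + p.2.1 ^ 2 + p.2.2 ^ 2}

/-- Representations of `m` by `x^2+y^2+2z^2` with `x` odd and positive, `y, z` even. -/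
def tC (m : ℕ) : Set (ℤ × ℤ × ℤ) :=
  {p | 0 < p.1 ∧ p.1 % 2 = 1 ∧ p.2.1 % 2 = 0 ∧ p.2.2 % 2 = 0 ∧
    (m : ℤ) = p.1 ^ 2 + p.2.1 ^ 2 + 2 * p.2.2 ^ 2}

/-- Move the first coordinate to another place. -/
def tMove (i : Fin 3) (p : ℤ × ℤ × ℤ) : ℤ × ℤ × ℤ :=
  match i with
  | 0 => (p.1, p.2.1, p.2.2)
  | 1 => (p.2.1, p.1, p.2.2)
  | 2 => (p.2.1, p.2.2, p.1)

/-- Change a sign. -/
def tSg (s : Bool) (x : ℤ) : ℤ := if s then x else -x

theorem card_tS_odd (m : ℕ) (hm : m % 8 = 1) : r3 m = 6 * Nat.card (tB m) := by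
  have h0 : r3 m = Nat.card (tS m) := by
    rw [Nat.card_coe_set_eq]
    rfl
  have h1 : Nat.card ((Fin 3 × Bool) × tB m) = 6 * Nat.card (tB m) := by
    rw [Nat.card_prod, Nat.card_prod]
    simp
  rw [h0, ← h1]
  symm
  refine Nat.card_congr (Equiv.ofBijective
    (fun q : (Fin 3 × Bool) × tB m =>
      (⟨tMove q.1.1 (tSg q.1.2 q.2.1.1, q.2.1.2.1, q.2.1.2.2), ?_⟩ : tS m)) ⟨?_, ?_⟩)
  · obtain ⟨⟨i, s⟩, ⟨x, y, z⟩, ha⟩ := q
    simp only [tB, Set.mem_ofPred_eq] at ha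
    obtain ⟨_, _, _, _, h⟩ := ha
    simp only [tS, Set.mem_ofPred_eq]
    fin_cases i <;> cases s <;> simp [tMove, tSg] <;> linarith
  · rintro ⟨⟨i, s⟩, ⟨x, y, z⟩, ha⟩ ⟨⟨j, t⟩, ⟨x', y', z'⟩, hb⟩ h
    simp only [Subtype.mk.injEq] at h
    simp only [tB, Set.mem_ofPred_eq] at ha hb
    obtain ⟨ha0, ha1, ha2, ha3, _⟩ := ha
    obtain ⟨hb0, hb1, hb2, hb3, _⟩ := hb
    have key : i = j ∧ s = t ∧ x = x' ∧ y = y' ∧ z = z' := by
      fin_cases i <;> fin_cases j <;> cases s <;> cases t <;>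
        simp [tMove, tSg] at h ⊢ <;> omega
    obtain ⟨rfl, rfl, rfl, rfl, rfl⟩ := key
    rfl
  · rintro ⟨⟨a, b, c⟩, ha⟩
    simp only [tS, Set.mem_ofPred_eq] at ha
    have hsw : ∀ i : Fin 3, ∀ x y z : ℤ, tMove i (x, y, z) = (a, b, c) → x % 2 = 1 → y % 2 = 0 →
        z % 2 = 0 → (m : ℤ) = x ^ 2 + y ^ 2 + z ^ 2 →
        ∃ q : (Fin 3 × Bool) × tB m,
          tMove q.1.1 (tSg q.1.2 q.2.1.1, q.2.1.2.1, q.2.1.2.2) = (a, b, c) := by
      intro i x y z hb h1 h2 h3 h4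
      rcases lt_or_ge 0 x with h | h
      · exact ⟨((i, true), ⟨(x, y, z), ⟨h, h1, h2, h3, h4⟩⟩), by simpa [tSg] using hb⟩
      · refine ⟨((i, false), ⟨(-x, y, z), ⟨?_, ?_, h2, h3, ?_⟩⟩), by simpa [tSg] using hb⟩
        · simp only
          omega
        · simp only
          omega
        · simp only
          linarith
    have key : ∃ q : (Fin 3 × Bool) × tB m,
        tMove q.1.1 (tSg q.1.2 q.2.1.1, q.2.1.2.1, q.2.1.2.2) = (a, b, c) := by
      rcases card_sq_mod a with ⟨h1, h1'⟩ | ⟨h1, h1'⟩ <;>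
      rcases card_sq_mod b with ⟨h2, h2'⟩ | ⟨h2, h2'⟩ <;>
      rcases card_sq_mod c with ⟨h3, h3'⟩ | ⟨h3, h3'⟩
      · omega
      · exact hsw 2 c a b rfl h3 h1 h2 (by linarith)
      · exact hsw 1 b a c rfl h2 h1 h3 (by linarith)
      · omega
      · exact hsw 0 a b c rfl h1 h2 h3 (by linarith)
      · omega
      · omega
      · omega
    obtain ⟨q, hq⟩ := key
    exact ⟨q, Subtype.ext hq⟩

/-- The eight symmetries of the last two coordinates. -/
def tMix (q : (Bool × Bool) × Bool) (p : ℤ × ℤ × ℤ) : ℤ × ℤ × ℤ :=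
  if q.2 then (p.1, tSg q.1.1 p.2.1, tSg q.1.2 p.2.2)
  else (p.1, tSg q.1.1 p.2.2, tSg q.1.2 p.2.1)

theorem card_tB (m : ℕ) (h1 : ∀ x y : ℤ, x ^ 2 + 1 * y ^ 2 ≠ (m : ℤ))
    (h2 : ∀ x y : ℤ, x ^ 2 + 2 * y ^ 2 ≠ (m : ℤ)) :
    Nat.card (tB m) = 8 * Nat.card (tP m) := by
  have h0 : Nat.card (((Bool × Bool) × Bool) × tP m) = 8 * Nat.card (tP m) := by
    rw [Nat.card_prod, Nat.card_prod, Nat.card_prod]
    simp
  rw [← h0]
  symm
  refine Nat.card_congr (Equiv.ofBijective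
    (fun q : ((Bool × Bool) × Bool) × tP m => (⟨tMix q.1 q.2.1, ?_⟩ : tB m)) ⟨?_, ?_⟩)
  · obtain ⟨⟨⟨s, t⟩, u⟩, ⟨x, y, z⟩, ha⟩ := q
    simp only [tP, Set.mem_ofPred_eq] at ha
    obtain ⟨ha0, ha1, ha2, ha3, ha4, ha5, h⟩ := ha
    simp only [tB, Set.mem_ofPred_eq]
    cases s <;> cases t <;> cases u <;> simp [tMix, tSg] <;>
      refine ⟨by omega, by omega, by omega, by omega, by linarith⟩
  · rintro ⟨⟨⟨s, t⟩, u⟩, ⟨x, y, z⟩, ha⟩ ⟨⟨⟨s', t'⟩, u'⟩, ⟨x', y', z'⟩, hb⟩ h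
    simp only [Subtype.mk.injEq] at h
    simp only [tP, Set.mem_ofPred_eq] at ha hb
    obtain ⟨ha0, ha1, ha2, ha3, ha4, ha5, _⟩ := ha
    obtain ⟨hb0, hb1, hb2, hb3, hb4, hb5, _⟩ := hb
    have key : s = s' ∧ t = t' ∧ u = u' ∧ x = x' ∧ y = y' ∧ z = z' := by
      cases s <;> cases t <;> cases u <;> cases s' <;> cases t' <;> cases u' <;>
        simp [tMix, tSg] at h ⊢ <;> omega
    obtain ⟨rfl, rfl, rfl, rfl, rfl, rfl⟩ := key
    rfl
  · rintro ⟨⟨x, y, z⟩, ha⟩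
    simp only [tB, Set.mem_ofPred_eq] at ha
    obtain ⟨ha0, ha1, ha2, ha3, h⟩ := ha
    have hy : y ≠ 0 := by
      rintro rfl
      exact h1 x z (by linarith)
    have hz : z ≠ 0 := by
      rintro rfl
      exact h1 x y (by linarith)
    have hyz : y ≠ z := by
      rintro rfl
      exact h2 x y (by linarith)
    have hyz' : y ≠ -z := by
      rintro rfl
      exact h2 x z (by linarith)
    have key : ∃ q : ((Bool × Bool) × Bool) × tP m, tMix q.1 q.2.1 = (x, y, z) := by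
      rcases lt_or_gt_of_ne hy with hy' | hy' <;> rcases lt_or_gt_of_ne hz with hz' | hz'
      · rcases lt_or_gt_of_ne hyz with hh | hh
        · exact ⟨(((false, false), false), ⟨(x, -z, -y), ⟨ha0, ha1, by simp only; omega,
            by simp only; omega, by simp only; omega, by simp only; omega,
            by simp only; linarith⟩⟩), by simp [tMix, tSg]⟩
        · exact ⟨(((false, false), true), ⟨(x, -y, -z), ⟨ha0, ha1, by simp only; omega,
            by simp only; omega, by simp only; omega, by simp only; omega,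
            by simp only; linarith⟩⟩), by simp [tMix, tSg]⟩
      · rcases lt_or_gt_of_ne hyz' with hh | hh
        · exact ⟨(((false, true), false), ⟨(x, z, -y), ⟨ha0, ha1, by simp only; omega,
            by simp only; omega, by simp only; omega, by simp only; omega,
            by simp only; linarith⟩⟩), by simp [tMix, tSg]⟩
        · exact ⟨(((false, true), true), ⟨(x, -y, z), ⟨ha0, ha1, by simp only; omega,
            by simp only; omega, by simp only; omega, by simp only; omega,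
            by simp only; linarith⟩⟩), by simp [tMix, tSg]⟩
      · rcases lt_or_gt_of_ne hyz' with hh | hh
        · exact ⟨(((true, false), true), ⟨(x, y, -z), ⟨ha0, ha1, by simp only; omega,
            by simp only; omega, by simp only; omega, by simp only; omega,
            by simp only; linarith⟩⟩), by simp [tMix, tSg]⟩
        · exact ⟨(((true, false), false), ⟨(x, -z, y), ⟨ha0, ha1, by simp only; omega,
            by simp only; omega, by simp only; omega, by simp only; omega,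
            by simp only; linarith⟩⟩), by simp [tMix, tSg]⟩
      · rcases lt_or_gt_of_ne hyz with hh | hh
        · exact ⟨(((true, true), true), ⟨(x, y, z), ⟨ha0, ha1, by simp only; omega,
            by simp only; omega, by simp only; omega, by simp only; omega,
            by simp only; linarith⟩⟩), by simp [tMix, tSg]⟩
        · exact ⟨(((true, true), false), ⟨(x, z, y), ⟨ha0, ha1, by simp only; omega,
            by simp only; omega, by simp only; omega, by simp only; omega,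
            by simp only; linarith⟩⟩), by simp [tMix, tSg]⟩
    obtain ⟨q, hq⟩ := key
    exact ⟨q, Subtype.ext hq⟩

/-- The representation of `2 m` belonging to one of `m = x^2 + y^2 + 2 z^2`. -/
def tDbl (q : Bool × Bool) (p : ℤ × ℤ × ℤ) : ℤ × ℤ × ℤ :=
  if q.2 then (2 * p.2.2, tSg q.1 p.1 + p.2.1, tSg q.1 p.1 - p.2.1)
  else (2 * p.2.2, p.2.1 + tSg q.1 p.1, p.2.1 - tSg q.1 p.1)

theorem card_tS_two (m : ℕ) (hm : m % 8 = 1) : r3 (2 * m) = 12 * Nat.card (tC m) := by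
  have h0 : r3 (2 * m) = Nat.card (tS (2 * m)) := by
    rw [Nat.card_coe_set_eq]
    rfl
  have h1 : Nat.card ((Fin 3 × (Bool × Bool)) × tC m) = 12 * Nat.card (tC m) := by
    rw [Nat.card_prod, Nat.card_prod, Nat.card_prod]
    simp
  rw [h0, ← h1]
  symm
  refine Nat.card_congr (Equiv.ofBijective
    (fun q : (Fin 3 × (Bool × Bool)) × tC m =>
      (⟨tMove q.1.1 (tDbl q.1.2 q.2.1), ?_⟩ : tS (2 * m))) ⟨?_, ?_⟩)
  · obtain ⟨⟨i, s, t⟩, ⟨x, y, z⟩, ha⟩ := q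
    simp only [tC, Set.mem_ofPred_eq] at ha
    obtain ⟨_, _, _, _, h⟩ := ha
    simp only [tS, Set.mem_ofPred_eq]
    push_cast
    fin_cases i <;> cases s <;> cases t <;> simp [tMove, tDbl, tSg] <;> linarith
  · rintro ⟨⟨i, s, t⟩, ⟨x, y, z⟩, ha⟩ ⟨⟨j, s', t'⟩, ⟨x', y', z'⟩, hb⟩ h
    simp only [Subtype.mk.injEq] at h
    simp only [tC, Set.mem_ofPred_eq] at ha hb
    obtain ⟨ha0, ha1, ha2, ha3, _⟩ := ha
    obtain ⟨hb0, hb1, hb2, hb3, _⟩ := hb
    have key : i = j ∧ s = s' ∧ t = t' ∧ x = x' ∧ y = y' ∧ z = z' := by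
      fin_cases i <;> fin_cases j <;> cases s <;> cases t <;> cases s' <;> cases t' <;>
        simp [tMove, tDbl, tSg] at h ⊢ <;> omega
    obtain ⟨rfl, rfl, rfl, rfl, rfl, rfl⟩ := key
    rfl
  · rintro ⟨⟨a, b, c⟩, ha⟩
    simp only [tS, Set.mem_ofPred_eq] at ha
    push_cast at ha
    have hsw : ∀ i : Fin 3, ∀ x y z : ℤ, tMove i (z, x, y) = (a, b, c) → x % 2 = 1 → y % 2 = 1 →
        z % 2 = 0 → 2 * (m : ℤ) = x ^ 2 + y ^ 2 + z ^ 2 →
        ∃ q : (Fin 3 × (Bool × Bool)) × tC m, tMove q.1.1 (tDbl q.1.2 q.2.1) = (a, b, c) := by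
      intro i x y z hb h1 h2 h3 h4
      obtain ⟨u, hu⟩ : ∃ u, x + y = 2 * u := ⟨(x + y) / 2, by omega⟩
      obtain ⟨v, hv⟩ : ∃ v, x - y = 2 * v := ⟨(x - y) / 2, by omega⟩
      obtain ⟨w, rfl⟩ : ∃ w, z = 2 * w := ⟨z / 2, by omega⟩
      obtain rfl : x = u + v := by omega
      obtain rfl : y = u - v := by omega
      have h5 : (m : ℤ) = u ^ 2 + v ^ 2 + 2 * w ^ 2 := by linarith
      have hmm : (m : ℤ) % 8 = 1 := by omega
      rcases card_sq_mod u with ⟨hu1, hu2⟩ | ⟨hu1, hu2⟩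
      · have hv1 : v % 2 = 1 := by omega
        have hw1 : w % 2 = 0 := by
          rcases card_sq_mod w with ⟨h, _⟩ | ⟨_, h⟩
          · exact h
          · rcases card_sq_mod v with ⟨h', _⟩ | ⟨_, h'⟩
            · omega
            · omega
        rcases lt_or_ge 0 v with h | h
        · exact ⟨((i, (true, false)), ⟨(v, u, w), ⟨h, hv1, hu1, hw1, by simp only; linarith⟩⟩),
            by simpa [tDbl, tSg] using hb⟩
        · exact ⟨((i, (false, false)), ⟨(-v, u, w), ⟨by simp only; omega, by simp only; omega, hu1,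
            hw1, by simp only; linarith⟩⟩), by simpa [tDbl, tSg] using hb⟩
      · have hv1 : v % 2 = 0 := by omega
        have hw1 : w % 2 = 0 := by
          rcases card_sq_mod w with ⟨h, _⟩ | ⟨_, h⟩
          · exact h
          · rcases card_sq_mod v with ⟨_, h'⟩ | ⟨h', _⟩
            · omega
            · omega
        rcases lt_or_ge 0 u with h | h
        · exact ⟨((i, (true, true)), ⟨(u, v, w), ⟨h, hu1, hv1, hw1, by simp only; linarith⟩⟩),
            by simpa [tDbl, tSg] using hb⟩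
        · exact ⟨((i, (false, true)), ⟨(-u, v, w), ⟨by simp only; omega, by simp only; omega, hv1,
            hw1, by simp only; linarith⟩⟩), by simpa [tDbl, tSg] using hb⟩
    have key : ∃ q : (Fin 3 × (Bool × Bool)) × tC m,
        tMove q.1.1 (tDbl q.1.2 q.2.1) = (a, b, c) := by
      rcases card_sq_mod a with ⟨h1, h1'⟩ | ⟨h1, h1'⟩ <;>
      rcases card_sq_mod b with ⟨h2, h2'⟩ | ⟨h2, h2'⟩ <;>
      rcases card_sq_mod c with ⟨h3, h3'⟩ | ⟨h3, h3'⟩
      · omega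
      · omega
      · omega
      · exact hsw 0 b c a rfl h2 h3 h1 (by linarith)
      · omega
      · exact hsw 1 a c b rfl h1 h3 h2 (by linarith)
      · exact hsw 2 a b c rfl h1 h2 h3 (by linarith)
      · omega
    obtain ⟨q, hq⟩ := key
    exact ⟨q, Subtype.ext hq⟩

/-- The quaternions fixed by some reflection. -/
def tFix (m : ℕ) : Set H :=
  {a | a ∈ VV m ∧ (a.imI = 0 ∨ a.imJ = 0 ∨ a.imK = 0 ∨ a.imJ = a.imK ∨ a.imJ = -a.imK)}

/-- The parametrisation of the fixed quaternions. -/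
def tQ (q : (Fin 3 × (ℤ × ℤ × ℤ)) ⊕ (Bool × (ℤ × ℤ × ℤ))) : H :=
  match q with
  | Sum.inl (0, p) => ⟨p.1, 0, p.2.1, p.2.2⟩
  | Sum.inl (1, p) => ⟨p.1, p.2.1, 0, p.2.2⟩
  | Sum.inl (2, p) => ⟨p.1, p.2.1, p.2.2, 0⟩
  | Sum.inr (s, p) => ⟨p.1, p.2.1, p.2.2, tSg s p.2.2⟩

theorem card_tFix (m : ℕ) (h1 : ∀ x y : ℤ, x ^ 2 + 1 * y ^ 2 ≠ (m : ℤ))
    (h2 : ∀ x y : ℤ, x ^ 2 + 2 * y ^ 2 ≠ (m : ℤ)) :
    Nat.card (tFix m) = 3 * Nat.card (tB m) + 2 * Nat.card (tC m) := by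
  have fB : Finite (tB m) := by
    have hf : (tB m).Finite := by
      refine Set.Finite.of_injOn (f := fun p : ℤ × ℤ × ℤ => tQ (Sum.inl (0, p))) ?_ ?_
        (cardQ_finite m)
      · rintro ⟨x, y, z⟩ h
        simp only [tB, Set.mem_ofPred_eq] at h
        show Quaternion.normSq (tQ (Sum.inl (0, (x, y, z)))) = (m : ℤ)
        rw [card_normSq]
        simp only [tQ]
        linarith [h.2.2.2.2]
      · rintro ⟨x, y, z⟩ _ ⟨x', y', z'⟩ _ h
        have h' : tQ (Sum.inl (0, (x, y, z))) = tQ (Sum.inl (0, (x', y', z'))) := h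
        rw [Quaternion.ext_iff] at h'
        simp only [tQ] at h'
        simp only [Prod.mk.injEq]
        tauto
    exact hf
  have fC : Finite (tC m) := by
    have hf : (tC m).Finite := by
      refine Set.Finite.of_injOn (f := fun p : ℤ × ℤ × ℤ => tQ (Sum.inr (true, p))) ?_ ?_
        (cardQ_finite m)
      · rintro ⟨x, y, z⟩ h
        simp only [tC, Set.mem_ofPred_eq] at h
        show Quaternion.normSq (tQ (Sum.inr (true, (x, y, z)))) = (m : ℤ)
        rw [card_normSq]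
        simp only [tQ, tSg, if_true]
        linarith [h.2.2.2.2]
      · rintro ⟨x, y, z⟩ _ ⟨x', y', z'⟩ _ h
        have h' : tQ (Sum.inr (true, (x, y, z))) = tQ (Sum.inr (true, (x', y', z'))) := h
        rw [Quaternion.ext_iff] at h'
        simp only [tQ] at h'
        simp only [Prod.mk.injEq]
        tauto
    exact hf
  have h0 : Nat.card ((Fin 3 × tB m) ⊕ (Bool × tC m))
      = 3 * Nat.card (tB m) + 2 * Nat.card (tC m) := by
    rw [Nat.card_sum, Nat.card_prod, Nat.card_prod]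
    simp
  rw [← h0]
  symm
  have nB : ∀ x y z : ℤ, (m : ℤ) = x ^ 2 + y ^ 2 + z ^ 2 → y ≠ 0 ∧ z ≠ 0 := by
    intro x y z h
    constructor
    · rintro rfl
      exact h1 x z (by linarith)
    · rintro rfl
      exact h1 x y (by linarith)
  have nC : ∀ x y z : ℤ, (m : ℤ) = x ^ 2 + y ^ 2 + 2 * z ^ 2 → y ≠ 0 ∧ z ≠ 0 := by
    intro x y z h
    constructor
    · rintro rfl
      exact h2 x z (by linarith)
    · rintro rfl
      exact h1 x y (by linarith)
  refine Nat.card_congr (Equiv.ofBijective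
    (fun q : (Fin 3 × tB m) ⊕ (Bool × tC m) =>
      (⟨tQ (Sum.map (Prod.map id Subtype.val) (Prod.map id Subtype.val) q), ?_⟩ : tFix m))
      ⟨?_, ?_⟩)
  · rcases q with ⟨i, ⟨x, y, z⟩, ha⟩ | ⟨s, ⟨x, y, z⟩, ha⟩
    · simp only [tB, Set.mem_ofPred_eq] at ha
      obtain ⟨ha0, ha1, ha2, ha3, h⟩ := ha
      simp only [tFix, VV, Set.mem_ofPred_eq]
      rw [card_normSq]
      fin_cases i <;> simp [tQ] <;> refine ⟨by omega, by omega, by omega, by omega, by linarith⟩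
    · simp only [tC, Set.mem_ofPred_eq] at ha
      obtain ⟨ha0, ha1, ha2, ha3, h⟩ := ha
      simp only [tFix, VV, Set.mem_ofPred_eq]
      rw [card_normSq]
      cases s <;> simp [tQ, tSg] <;>
        refine ⟨by omega, by omega, by omega, by omega, by linarith⟩
  · rintro (⟨i, ⟨x, y, z⟩, ha⟩ | ⟨s, ⟨x, y, z⟩, ha⟩) (⟨j, ⟨x', y', z'⟩, hb⟩ | ⟨t, ⟨x', y', z'⟩, hb⟩) h
    · simp only [Subtype.mk.injEq] at h
      simp only [tB, Set.mem_ofPred_eq] at ha hb
      obtain ⟨ha0, ha1, ha2, ha3, ha4⟩ := ha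
      obtain ⟨hb0, hb1, hb2, hb3, hb4⟩ := hb
      obtain ⟨ha5, ha6⟩ := nB _ _ _ ha4
      obtain ⟨hb5, hb6⟩ := nB _ _ _ hb4
      rw [Quaternion.ext_iff] at h
      have key : i = j ∧ x = x' ∧ y = y' ∧ z = z' := by
        fin_cases i <;> fin_cases j <;> simp [tQ] at h ⊢ <;> omega
      obtain ⟨rfl, rfl, rfl, rfl⟩ := key
      rfl
    · exfalso
      simp only [Subtype.mk.injEq] at h
      simp only [tB, tC, Set.mem_ofPred_eq] at ha hb
      obtain ⟨ha0, ha1, ha2, ha3, ha4⟩ := ha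
      obtain ⟨hb0, hb1, hb2, hb3, hb4⟩ := hb
      obtain ⟨ha5, ha6⟩ := nB _ _ _ ha4
      obtain ⟨hb5, hb6⟩ := nC _ _ _ hb4
      rw [Quaternion.ext_iff] at h
      fin_cases i <;> cases t <;> simp [tQ, tSg] at h <;> omega
    · exfalso
      simp only [Subtype.mk.injEq] at h
      simp only [tB, tC, Set.mem_ofPred_eq] at ha hb
      obtain ⟨ha0, ha1, ha2, ha3, ha4⟩ := ha
      obtain ⟨hb0, hb1, hb2, hb3, hb4⟩ := hb
      obtain ⟨ha5, ha6⟩ := nC _ _ _ ha4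
      obtain ⟨hb5, hb6⟩ := nB _ _ _ hb4
      rw [Quaternion.ext_iff] at h
      fin_cases j <;> cases s <;> simp [tQ, tSg] at h <;> omega
    · simp only [Subtype.mk.injEq] at h
      simp only [tC, Set.mem_ofPred_eq] at ha hb
      obtain ⟨ha0, ha1, ha2, ha3, ha4⟩ := ha
      obtain ⟨hb0, hb1, hb2, hb3, hb4⟩ := hb
      obtain ⟨ha5, ha6⟩ := nC _ _ _ ha4
      obtain ⟨hb5, hb6⟩ := nC _ _ _ hb4
      rw [Quaternion.ext_iff] at h
      have key : s = t ∧ x = x' ∧ y = y' ∧ z = z' := by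
        cases s <;> cases t <;> simp [tQ, tSg] at h ⊢ <;> omega
      obtain ⟨rfl, rfl, rfl, rfl⟩ := key
      rfl
  · rintro ⟨⟨a, b, c, d⟩, ⟨hV, hP⟩⟩
    simp only [VV, Set.mem_ofPred_eq] at hV
    rw [card_normSq] at hV
    simp only at hV hP
    obtain ⟨v0, v1, v2, v3, v4, v5⟩ := hV
    rcases hP with rfl | rfl | rfl | rfl | rfl
    · exact ⟨Sum.inl (0, ⟨(a, c, d), ⟨v0, v1, v3, v4, by simp only; linarith⟩⟩), rfl⟩
    · exact ⟨Sum.inl (1, ⟨(a, b, d), ⟨v0, v1, v2, v4, by simp only; linarith⟩⟩), rfl⟩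
    · exact ⟨Sum.inl (2, ⟨(a, b, c), ⟨v0, v1, v2, v3, by simp only; linarith⟩⟩), rfl⟩
    · exact ⟨Sum.inr (true, ⟨(a, b, c), ⟨v0, v1, v2, v3, by simp only; linarith⟩⟩), rfl⟩
    · refine ⟨Sum.inr (false, ⟨(a, b, -d), ⟨v0, v1, v2, v3, by simp only; linarith⟩⟩), ?_⟩
      apply Subtype.ext
      simp [tQ, tSg]

/-- The elements with a vanishing coordinate or second and third coordinate equal up to sign. -/
def FF (m : ℕ) : Set H :=
  {v | v ∈ VV m ∧ (v.imI = 0 ∨ v.imJ = 0 ∨ v.imK = 0 ∨ v.imJ = v.imK ∨ v.imJ = - v.imK)}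

theorem card_FF (m : ℕ) (h : m % 8 = 1) (h1 : ∀ x y : ℤ, x ^ 2 + y ^ 2 ≠ (m : ℤ))
    (h2 : ∀ x y : ℤ, x ^ 2 + 2 * y ^ 2 ≠ (m : ℤ)) :
    6 * Nat.card (FF m) = 3 * r3 m + r3 (2 * m) := by
  have h1' : ∀ x y : ℤ, x ^ 2 + 1 * y ^ 2 ≠ (m : ℤ) := by
    intro x y
    rw [one_mul]
    exact h1 x y
  have h3 := card_tFix m h1' h2
  have h4 := card_tS_odd m h
  have h5 := card_tS_two m h
  have h6 : Nat.card (FF m) = Nat.card (tFix m) := rfl
  rw [h6, h3, h4, h5]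
  ring

theorem dvd_r3 (m : ℕ) (h : m % 8 = 1) (h1 : ∀ x y : ℤ, x ^ 2 + y ^ 2 ≠ (m : ℤ))
    (h2 : ∀ x y : ℤ, x ^ 2 + 2 * y ^ 2 ≠ (m : ℤ)) : 48 ∣ r3 m := by
  have h1' : ∀ x y : ℤ, x ^ 2 + 1 * y ^ 2 ≠ (m : ℤ) := by
    intro x y
    rw [one_mul]
    exact h1 x y
  rw [card_tS_odd m h, card_tB m h1' h2]
  exact ⟨Nat.card (tP m), by ring⟩

end Pool.Agent.TQS
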