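import Pool.Agent.TQS.Defs

/-!
Project TQS, module BIN: no representations by the forms `x² + y²` and `x² + 2y²`.

PROOF. `p % 8 = 7` prime: `-1` and `-2` are not squares modulo `p` (`ZMod.exists_sq_eq_neg_one_iff`,
`ZMod.exists_sq_eq_neg_two_iff`). If `x² + y² = q * p` then modulo `p`: `x² = - y²`; if `p` does not
divide `y` then `-1` is a square modulo `p`, contradiction; so `p ∣ y`, `p ∣ x`, `p² ∣ q * p`,
`p ∣ q`, contradiction. The same with `-2`.
-/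

namespace Pool.Agent.TQS

private theorem bin_aux (p q : ℕ) (hp : p.Prime) (hq : q.Prime) (hpq : p ≠ q) (c : ℤ)
    (hc : ¬ IsSquare (-(c : ZMod p))) (x y : ℤ) : x ^ 2 + c * y ^ 2 ≠ ((q * p : ℕ) : ℤ) := by
  haveI : Fact p.Prime := ⟨hp⟩
  intro h
  have hm : (x : ZMod p) ^ 2 + (c : ZMod p) * (y : ZMod p) ^ 2 = 0 := by
    have h1 := congrArg (Int.cast : ℤ → ZMod p) h
    push_cast at h1
    rw [h1]
    simp
  have hy : (y : ZMod p) = 0 := by
    by_contra hy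
    apply hc
    refine ⟨(x : ZMod p) * (y : ZMod p)⁻¹, ?_⟩
    field_simp
    linear_combination -hm
  have hx : (x : ZMod p) = 0 := by
    rw [hy] at hm
    simpa using hm
  have hy' : (p : ℤ) ∣ y := (ZMod.intCast_zmod_eq_zero_iff_dvd y p).1 hy
  have hx' : (p : ℤ) ∣ x := (ZMod.intCast_zmod_eq_zero_iff_dvd x p).1 hx
  obtain ⟨s, rfl⟩ := hy'
  obtain ⟨t, rfl⟩ := hx'
  have hp0 : (p : ℤ) ≠ 0 := by exact_mod_cast hp.ne_zero
  have h2 : (p : ℤ) * (t ^ 2 + c * s ^ 2) = q := by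
    apply mul_left_cancel₀ hp0
    push_cast at h
    linear_combination h
  have h3 : (p : ℤ) ∣ (q : ℤ) := ⟨_, h2.symm⟩
  have h4 : p ∣ q := by exact_mod_cast h3
  exact hpq ((Nat.prime_dvd_prime_iff_eq hp hq).1 h4)

theorem no_one (p q : ℕ) (hp : p.Prime) (hq : q.Prime) (hpq : p ≠ q) (h7 : p % 8 = 7)
    (x y : ℤ) : x ^ 2 + y ^ 2 ≠ ((q * p : ℕ) : ℤ) := by
  haveI : Fact p.Prime := ⟨hp⟩
  have h := bin_aux p q hp hq hpq 1 (by
    intro h
    have h1 : IsSquare (-1 : ZMod p) := by simpa using h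
    rw [ZMod.exists_sq_eq_neg_one_iff] at h1
    omega) x y
  simpa using h

theorem no_two (p q : ℕ) (hp : p.Prime) (hq : q.Prime) (hpq : p ≠ q) (h7 : p % 8 = 7)
    (x y : ℤ) : x ^ 2 + 2 * y ^ 2 ≠ ((q * p : ℕ) : ℤ) := by
  haveI : Fact p.Prime := ⟨hp⟩
  refine bin_aux p q hp hq hpq 2 ?_ x y
  intro h
  have h1 : IsSquare (-2 : ZMod p) := by simpa using h
  rw [ZMod.exists_sq_eq_neg_two_iff (by omega)] at h1
  omega

end Pool.Agent.TQS
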