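import Pool.Agent.TQS.Sgn

/-!
Project TQS, module FIB: fibrewise permutations of the quotient of `X × Z` by a group.

PROOF. Let `T = MulAction.orbitRel.Quotient G Z`, finite, and `card Z = card T * card G` because the
action on `Z` is free (`MulAction.selfEquivOrbitsQuotientProd`, or `card_eq_sum_card_group_div...`).
Let `e : X × T → Q`, `e (x, t) = π x t.out`. It is bijective: if `π x t.out = π x' t'.out` then
`g • x = x'`, `g • t.out = t'.out`, so `t = t'`, so `g` fixes `t.out`, `g = 1`, `x = x'`; for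
surjectivity write `q = π x z`, `z = g • t.out` with `t` the orbit of `z`, then
`q = π (g⁻¹ • x) t.out`. The permutation `(x, t) ↦ (ρ t.out x, t)` of `X × T` has sign
`s ^ card T` (`sgn_fibre`); transport it by `e` (`sgn_permCongr`). Its value at `π x z`:
with `z = g • t.out`: `π x z = e (g⁻¹ • x, t)`, goes to `π (ρ t.out (g⁻¹ • x)) t.out`
`= π (g • ρ t.out (g⁻¹ • x)) (g • t.out) = π (ρ z x) z` by the equivariance `hρ`.
-/

namespace Pool.Agent.TQS

theorem exists_fib {G X Z Q : Type*} [Group G] [Finite G] [Finite X] [Finite Z] [Finite Q]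
    [MulAction G X] [MulAction G Z] (π : X → Z → Q)
    (hsurj : ∀ q, ∃ x z, π x z = q)
    (hπ : ∀ x z x' z', π x z = π x' z' ↔ ∃ g : G, g • x = x' ∧ g • z = z')
    (hfree : ∀ (g : G) (z : Z), g • z = z → g = 1)
    (ρ : Z → Equiv.Perm X) (hρ : ∀ (g : G) (z : Z) (x : X), ρ (g • z) (g • x) = g • ρ z x)
    (s : ℤˣ) (hs : ∀ z, sgn (ρ z) = s) :
    ∃ Φ : Equiv.Perm Q, (∀ x z, Φ (π x z) = π (ρ z x) z) ∧
      sgn Φ = s ^ (Nat.card Z / Nat.card G) := by
  classical
  have hstab : ∀ z : Z, MulAction.stabilizer G z = ⊥ := by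
    intro z
    rw [eq_bot_iff]
    intro g hg
    rw [Subgroup.mem_bot]
    exact hfree g z hg
  have hcard : Nat.card Z / Nat.card G = Nat.card (MulAction.orbitRel.Quotient G Z) := by
    rw [Nat.card_congr (MulAction.selfEquivOrbitsQuotientProd hstab), Nat.card_prod]
    exact Nat.mul_div_cancel _ Nat.card_pos
  have hfin : Finite (MulAction.orbitRel.Quotient G Z) :=
    Quotient.finite (MulAction.orbitRel G Z)
  have hout : ∀ z : Z, ∃ g : G,
      g • (Quotient.out (Quotient.mk (MulAction.orbitRel G Z) z)) = z := by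
    intro z
    have h1 := Quotient.mk_out (s := MulAction.orbitRel G Z) z
    have h2 : MulAction.orbitRel G Z z
        (Quotient.out (Quotient.mk (MulAction.orbitRel G Z) z)) :=
      (MulAction.orbitRel G Z).symm h1
    exact h2
  have hf : Function.Bijective
      (fun p : X × MulAction.orbitRel.Quotient G Z => π p.1 (Quotient.out p.2)) := by
    constructor
    · rintro ⟨x, t⟩ ⟨x', t'⟩ h
      obtain ⟨g, h1, h2⟩ := (hπ _ _ _ _).1 h
      dsimp only at h1 h2
      have h3 : t = t' := by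
        rw [← Quotient.out_eq t, ← Quotient.out_eq t']
        apply Quotient.sound
        exact (MulAction.orbitRel G Z).symm ⟨g, h2⟩
      subst h3
      have h4 : g = 1 := hfree g _ h2
      rw [h4, one_smul] at h1
      rw [h1]
    · intro q
      obtain ⟨x, z, rfl⟩ := hsurj q
      obtain ⟨g, hg⟩ := hout z
      refine ⟨(g⁻¹ • x, Quotient.mk (MulAction.orbitRel G Z) z), ?_⟩
      dsimp only
      rw [hπ]
      exact ⟨g, by rw [smul_inv_smul], hg⟩
  have hF1 : ∀ p : X × MulAction.orbitRel.Quotient G Z,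
      ((ρ (Quotient.out p.2)).symm (ρ (Quotient.out p.2) p.1), p.2) = p := by
    rintro ⟨x, t⟩
    simp
  have hF2 : ∀ p : X × MulAction.orbitRel.Quotient G Z,
      (ρ (Quotient.out p.2) ((ρ (Quotient.out p.2)).symm p.1), p.2) = p := by
    rintro ⟨x, t⟩
    simp
  obtain ⟨F, hF⟩ : ∃ F : Equiv.Perm (X × MulAction.orbitRel.Quotient G Z),
      ∀ x t, F (x, t) = (ρ (Quotient.out t) x, t) :=
    ⟨⟨fun p => (ρ (Quotient.out p.2) p.1, p.2), fun p => ((ρ (Quotient.out p.2)).symm p.1, p.2),
      hF1, hF2⟩, fun _ _ => rfl⟩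
  refine ⟨(Equiv.ofBijective _ hf).permCongr F, ?_, ?_⟩
  · intro x z
    obtain ⟨g, hg⟩ := hout z
    have h1 : π x z = (Equiv.ofBijective _ hf)
        (g⁻¹ • x, Quotient.mk (MulAction.orbitRel G Z) z) := by
      change π x z = π (g⁻¹ • x) _
      rw [eq_comm, hπ]
      exact ⟨g, by rw [smul_inv_smul], hg⟩
    rw [h1, Equiv.permCongr_apply, Equiv.symm_apply_apply, hF]
    change π (ρ _ (g⁻¹ • x)) _ = _
    rw [hπ]
    refine ⟨g, ?_, hg⟩
    rw [← hρ, hg, smul_inv_smul]
  · rw [sgn_permCongr, hcard]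
    exact sgn_fibre (fun t => ρ (Quotient.out t)) s (fun t => hs _) F hF

end Pool.Agent.TQS
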