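import Pool.Agent.TQS.Swap
import Pool.Agent.TQS.Fib

/-!
Project TQS, module CNJ: the sign of conjugation on the orbits of `VV (q * p)`.

Definitions: `QV m` is the set of orbits of `G` on `VV m`; conjugation commutes with `G`
(`act_star`) so it induces a permutation `conjQ m` of `QV m`.
PROOF of `sgn_conjQ`. Put `m = q * p`, `π b a = ⟦nm (b * a)⟧`. It is surjective (`prod_surj`) and
`π b a = π b' a' ↔ ∃ g, g • b = b' ∧ g • a = a'` (`nm_act`, `act_hmul`, `prod_inj`). `G` acts freely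
on `AA p` and `AA q` (`free_AA`), `Nat.card G = 8`. Apply `exists_fib` four times:
`Φ1` : `ρ` of `exists_swap` (sign `chi q p`), giving sign `chi q p ^ ((p + 1) / 8)`;
`Φ2` : (roles exchanged, `π' a b = π b a`) `μ`, sign `chi p q ^ ((q + 1) / 8)`;
`Φ3` : `b ↦ star b` for every `a`: `conjA q` is an involution without fixed points, so has sign
`(-1) ^ ((q + 1) / 2) = 1` by `sgn_invol`; `Φ4` : the same with `a`.
Then `conjQ = Φ4 * Φ3 * Φ2 * Φ1`: `π b a ↦ π (ρ a b) a ↦ π (ρ a b) (μ (ρ a b) a)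
↦ π (star (ρ a b)) (μ ..) ↦ π (star (ρ a b)) (star (μ (ρ a b) a))` and with `b'' = ρ a b`,
`a'' = μ b'' a`: `nm (star b'' * star a'') = nm (star (a'' * b'')) = star (nm (a'' * b''))
= star (nm (b * a))`.
-/

namespace Pool.Agent.TQS

open Quaternion

theorem conjV_smul {m : ℕ} (g : G) (v : VV m) : conjV m (g • v) = g • conjV m v :=
  Subtype.ext (act_star g v).symm

/-- Conjugation on the orbits. -/
noncomputable def conjQ (m : ℕ) : Equiv.Perm (QV m) :=
  Quotient.congr (conjV m) (by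
    intro a b
    constructor
    · rintro ⟨g, hg⟩
      exact ⟨g, by rw [← hg]; exact (conjV_smul g b).symm⟩
    · rintro ⟨g, hg⟩
      refine ⟨g, ?_⟩
      apply (conjV m).injective
      rw [← hg]
      exact conjV_smul g b)

theorem conjQ_mk {m : ℕ} (v : VV m) :
    conjQ m (Quotient.mk _ v : QV m) = (Quotient.mk _ (conjV m v) : QV m) := rfl

theorem card_G : Nat.card G = 8 := by
  rw [DihedralGroup.nat_card]

theorem free_AA (l : ℕ) (g : G) (a : AA l) (h : g • a = a) : g = 1 := by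
  obtain ⟨h0, h1, h2, h3, h4, h5⟩ := a.2
  have hv := congrArg (fun b : AA l => (b : H)) h
  simp only [smulA_val] at hv
  rcases g with i | i
  · rcases cases4 i with rfl | rfl | rfl | rfl
    · rfl
    · exfalso
      have e2 := congrArg QuaternionAlgebra.imJ hv
      have e3 := congrArg QuaternionAlgebra.imK hv
      simp only [act, rot1] at e2 e3
      omega
    · exfalso
      have e2 := congrArg QuaternionAlgebra.imJ hv
      simp only [act, rot2] at e2
      omega
    · exfalso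
      have e2 := congrArg QuaternionAlgebra.imJ hv
      have e3 := congrArg QuaternionAlgebra.imK hv
      simp only [act, rot3] at e2 e3
      omega
  · exfalso
    have e1 := congrArg QuaternionAlgebra.imI hv
    have e2 : (rot i (a : H)).imI = (a : H).imI := by
      rcases cases4 i with rfl | rfl | rfl | rfl <;> rfl
    simp only [act, flp] at e1
    omega

theorem sgn_conjA (l : ℕ) (h7 : l % 8 = 7) (hc : Nat.card (AA l) = l + 1) : sgn (conjA l) = 1 := by
  obtain ⟨k, hk1, hk2⟩ := sgn_invol (conjA l) (fun x => Subtype.ext (star_star _))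
  have hemp : IsEmpty {x : AA l // conjA l x = x} := by
    constructor
    rintro ⟨x, hx⟩
    obtain ⟨h0, h1, h2, h3, h4, h5⟩ := x.2
    have hv := congrArg (fun b : AA l => (b : H)) hx
    simp only [conjA_val] at hv
    have e1 := congrArg QuaternionAlgebra.imI hv
    rw [Quaternion.imI_star] at e1
    omega
  have hz : Nat.card {x : AA l // conjA l x = x} = 0 := Nat.card_of_isEmpty
  rw [hc, hz] at hk1
  rw [hk2]
  have : Even k := ⟨(l + 1) / 4, by omega⟩
  exact this.neg_one_pow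

theorem sgn_conjQ (p q : ℕ) (hp : p.Prime) (hq : q.Prime) (hpq : p ≠ q) (h7 : p % 8 = 7)
    (h7' : q % 8 = 7) :
    sgn (conjQ (q * p)) = chi q p ^ ((p + 1) / 8) * chi p q ^ ((q + 1) / 8) := by
  have hcp := card_AA p hp h7
  have hcq := card_AA q hq h7'
  have hcm := card_VV_mul p q hp hq hpq h7 h7'
  obtain ⟨ρ, μ, hρ, hμ, eρ, eμ, hswap⟩ := exists_swap p q hp hq hpq h7 h7'
  let π : AA q → AA p → QV (q * p) := fun b a =>
    (Quotient.mk _ (⟨nm ((b : H) * (a : H)), nm_mem p q b.2 a.2⟩ : VV (q * p)) : QV (q * p))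
  have hsurj : ∀ w, ∃ b a, π b a = w := by
    intro w
    induction w using Quotient.inductionOn with
    | _ v =>
      obtain ⟨b, hb, a, ha, he⟩ := prod_surj p q hp hq hpq hcp hcq hcm v v.2
      exact ⟨⟨b, hb⟩, ⟨a, ha⟩, congrArg (Quotient.mk _) (Subtype.ext he)⟩
  have hπ : ∀ b a b' a', π b a = π b' a' ↔ ∃ g : G, g • b = b' ∧ g • a = a' := by
    intro b a b' a'
    constructor
    · intro h
      obtain ⟨g, hg⟩ := Quotient.exact h
      have hg1 : act g (nm ((b' : H) * (a' : H))) = nm ((b : H) * (a : H)) :=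
        congrArg (fun v : VV (q * p) => (v : H)) hg
      rw [← nm_act, act_hmul] at hg1
      obtain ⟨e1, e2⟩ := prod_inj p q hp hq hpq (act_AA p g a'.2) a.2 (act_AA q g b'.2) b.2 hg1
      refine ⟨g⁻¹, ?_, ?_⟩
      · rw [inv_smul_eq_iff]
        exact Subtype.ext e1.symm
      · rw [inv_smul_eq_iff]
        exact Subtype.ext e2.symm
    · rintro ⟨g, rfl, rfl⟩
      apply Quotient.sound
      refine ⟨g⁻¹, ?_⟩
      simp only
      rw [inv_smul_eq_iff]
      apply Subtype.ext
      simp only [smulV_val, smulA_val]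
      rw [← nm_act, act_hmul]
  have hsurj' : ∀ w, ∃ a b, π b a = w := fun w => by
    obtain ⟨b, a, h⟩ := hsurj w
    exact ⟨a, b, h⟩
  have hπ' : ∀ a b a' b', π b a = π b' a' ↔ ∃ g : G, g • a = a' ∧ g • b = b' := by
    intro a b a' b'
    rw [hπ]
    constructor
    · rintro ⟨g, h1, h2⟩; exact ⟨g, h2, h1⟩
    · rintro ⟨g, h1, h2⟩; exact ⟨g, h2, h1⟩
  have hG := card_G
  have d8 : (q * p) = q * p := rfl
  have ec : ∀ (l : ℕ) (g : G) (x : AA l), conjA l (g • x) = g • conjA l x := fun l g x =>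
    Subtype.ext (act_star g x).symm
  obtain ⟨Φ1, f1, s1⟩ := exists_fib (G := G) (X := AA q) (Z := AA p) π hsurj hπ (free_AA p) ρ
    (fun g a b => eρ g a b) (chi q p) hρ
  obtain ⟨Φ2, f2, s2⟩ := exists_fib (G := G) (X := AA p) (Z := AA q) (fun a b => π b a) hsurj' hπ'
    (free_AA q) μ (fun g b a => eμ g b a) (chi p q) hμ
  obtain ⟨Φ3, f3, s3⟩ := exists_fib (G := G) (X := AA q) (Z := AA p) π hsurj hπ (free_AA p)
    (fun _ => conjA q) (fun g _ b => ec q g b) 1 (fun _ => sgn_conjA q h7' hcq)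
  obtain ⟨Φ4, f4, s4⟩ := exists_fib (G := G) (X := AA p) (Z := AA q) (fun a b => π b a) hsurj' hπ'
    (free_AA q) (fun _ => conjA p) (fun g _ a => ec p g a) 1 (fun _ => sgn_conjA p h7 hcp)
  have key : conjQ (q * p) = Φ4 * Φ3 * Φ2 * Φ1 := by
    ext w
    obtain ⟨b, a, rfl⟩ := hsurj w
    have r1 : Φ1 (π b a) = π (ρ a b) a := f1 b a
    have r2 : Φ2 (π (ρ a b) a) = π (ρ a b) (μ (ρ a b) a) := f2 a (ρ a b)
    have r3 : Φ3 (π (ρ a b) (μ (ρ a b) a)) = π (conjA q (ρ a b)) (μ (ρ a b) a) :=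
      f3 (ρ a b) (μ (ρ a b) a)
    have r4 : Φ4 (π (conjA q (ρ a b)) (μ (ρ a b) a)) =
        π (conjA q (ρ a b)) (conjA p (μ (ρ a b) a)) := f4 (μ (ρ a b) a) (conjA q (ρ a b))
    rw [Equiv.Perm.mul_apply, Equiv.Perm.mul_apply, Equiv.Perm.mul_apply, r1, r2, r3, r4]
    change (Quotient.mk _ (conjV (q * p) ⟨nm ((b : H) * (a : H)), nm_mem p q b.2 a.2⟩) :
      QV (q * p)) = _
    apply congrArg (Quotient.mk _)
    apply Subtype.ext
    rw [conjV_val]
    simp only [conjA_val]
    rw [← star_mul, nm_star, hswap a b]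
  rw [key, sgn_mul, sgn_mul, sgn_mul, s1, s2, s3, s4, hG, hcp, hcq, one_pow, one_pow, one_mul,
    one_mul, mul_comm]

end Pool.Agent.TQS
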