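import Mathlib
import Pool.Agent.H24.Defs

/-!
Project TQS (MP_f126a2_nt), definitions: integral quaternions, the sets `AA ell` (norm a prime
`ell = 7 mod 8`), `VV m` (norm `m = 1 mod 8`), the action of the dihedral group of order eight by
automorphisms, and the sign of a permutation of a finite type.
-/

namespace Pool.Agent.TQS

/-- Integral (Lipschitz) quaternions. -/
abbrev H := Quaternion ℤ

/-- The quaternions of norm `l` with positive even real part and odd other coordinates. -/
def AA (l : ℕ) : Set H :=
  {a | 0 < a.re ∧ a.re % 2 = 0 ∧ a.imI % 2 = 1 ∧ a.imJ % 2 = 1 ∧ a.imK % 2 = 1 ∧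
    Quaternion.normSq a = (l : ℤ)}

/-- The quaternions of norm `m` with positive odd real part and even other coordinates. -/
def VV (m : ℕ) : Set H :=
  {a | 0 < a.re ∧ a.re % 2 = 1 ∧ a.imI % 2 = 0 ∧ a.imJ % 2 = 0 ∧ a.imK % 2 = 0 ∧
    Quaternion.normSq a = (m : ℤ)}

/-- The dihedral group of order eight. -/
abbrev G := DihedralGroup 4

/-- The rotation by the multiple `i` of a right angle about the first imaginary axis. -/
def rot (i : ZMod 4) (a : H) : H :=
  if i = 0 then a
  else if i = 1 then ⟨a.re, a.imI, -a.imK, a.imJ⟩
  else if i = 2 then ⟨a.re, a.imI, -a.imJ, -a.imK⟩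
  else ⟨a.re, a.imI, a.imK, -a.imJ⟩

/-- The rotation by two right angles about the second imaginary axis. -/
def flp (a : H) : H := ⟨a.re, -a.imI, a.imJ, -a.imK⟩

/-- The action of the dihedral group of order eight on quaternions, by automorphisms. -/
def act : G → H → H
  | DihedralGroup.r i, a => rot i a
  | DihedralGroup.sr i, a => flp (rot i a)

/-- The sign of a permutation of a finite type. -/
noncomputable def sgn {α : Type*} [Finite α] (s : Equiv.Perm α) : ℤˣ := by
  classical exact @Equiv.Perm.sign α _ (Fintype.ofFinite α) s

/-- The one of `w` and `-w` with positive real part (when the real part is not zero). -/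
def nm (w : H) : H := if 0 < w.re then w else -w

/-- The quadratic character of an integer modulo `l`, as a unit (one on multiples of `l`). -/
noncomputable def chi (l : ℕ) (a : ℤ) : ℤˣ := by
  classical exact if IsSquare (a : ZMod l) then 1 else -1

end Pool.Agent.TQS
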