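import Pool.Agent.TQS.Base

/-!
Project TQS, module INJ: two elements of `AA l` with the same kernel modulo `l` are equal.

PROOF. `a' * star a = l * u`, norms: `l * l = l ^ 2 * normSq u`, so `normSq u = 1`, so `u` is one of
the eight units. Multiply by `a` on the right: `l * a' = l * u * a` (`star a * a = normSq a = l`), so
`a' = u * a`. If `u = ±1` then `a' = ±a` and the positive real parts give `a' = a`. If `u = ±i`:
`(u * a).imI = ± a.re` is even but `a'.imI` is odd, contradiction; similarly for `j`, `k`.
-/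

namespace Pool.Agent.TQS

open Quaternion

private theorem inj_sq_le {x s : ℤ} (hs : 0 ≤ s) (h : x ^ 2 + s = 1) : x = -1 ∨ x = 0 ∨ x = 1 := by
  have h1 : x ≤ 1 := by nlinarith
  have h2 : -1 ≤ x := by nlinarith
  omega

theorem inj_of_dvd (l : ℕ) (hl : 0 < l) {a a' u : H} (ha : a ∈ AA l) (ha' : a' ∈ AA l)
    (h : a' * star a = (l : H) * u) : a' = a := by
  obtain ⟨p1, p2, p3, p4, p5, p6⟩ := ha
  obtain ⟨q1, q2, q3, q4, q5, q6⟩ := ha'
  have hl' : (l : ℤ) ≠ 0 := by exact_mod_cast hl.ne'
  have hs : star a * a = ((l : ℤ) : H) := by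
    rw [Quaternion.star_mul_self, p6]
    rfl
  have h1 : a' * ((l : ℤ) : H) = (l : H) * u * a := by rw [← hs, ← mul_assoc, h]
  have hnorm : normSq u = 1 := by
    have h2 := congrArg normSq h
    rw [map_mul, map_mul, Quaternion.normSq_star, p6, q6, Quaternion.normSq_natCast] at h2
    have h3 : (l : ℤ) ^ 2 * (normSq u - 1) = 0 := by linear_combination -h2
    rcases mul_eq_zero.1 h3 with h4 | h4
    · exact absurd (pow_eq_zero_iff (by norm_num) |>.1 h4) hl'
    · linarith
  have hl2 : (l : H) = ((l : ℤ) : H) := by push_cast; rfl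
  rw [hl2] at h1
  have e0 : a'.re = (u * a).re := by
    have h2 := congrArg QuaternionAlgebra.re h1
    apply mul_left_cancel₀ hl'
    rw [mul_assoc] at h2
    simp only [Quaternion.re_mul, Quaternion.re_intCast, Quaternion.imI_intCast,
      Quaternion.imJ_intCast, Quaternion.imK_intCast, mul_zero, zero_mul, sub_zero] at h2 ⊢
    linear_combination h2
  have e1 : a'.imI = (u * a).imI := by
    have h2 := congrArg QuaternionAlgebra.imI h1
    apply mul_left_cancel₀ hl'
    rw [mul_assoc] at h2
    simp only [Quaternion.imI_mul, Quaternion.re_intCast, Quaternion.imI_intCast,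
      Quaternion.imJ_intCast, Quaternion.imK_intCast, mul_zero, zero_mul, sub_zero, add_zero,
      zero_add] at h2 ⊢
    linear_combination h2
  have e2 : a'.imJ = (u * a).imJ := by
    have h2 := congrArg QuaternionAlgebra.imJ h1
    apply mul_left_cancel₀ hl'
    rw [mul_assoc] at h2
    simp only [Quaternion.imJ_mul, Quaternion.re_intCast, Quaternion.imI_intCast,
      Quaternion.imJ_intCast, Quaternion.imK_intCast, mul_zero, zero_mul, sub_zero, add_zero,
      zero_add] at h2 ⊢
    linear_combination h2
  have e3 : a'.imK = (u * a).imK := by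
    have h2 := congrArg QuaternionAlgebra.imK h1
    apply mul_left_cancel₀ hl'
    rw [mul_assoc] at h2
    simp only [Quaternion.imK_mul, Quaternion.re_intCast, Quaternion.imI_intCast,
      Quaternion.imJ_intCast, Quaternion.imK_intCast, mul_zero, zero_mul, sub_zero, add_zero,
      zero_add] at h2 ⊢
    linear_combination h2
  rw [normSq_eq] at hnorm
  rw [Quaternion.re_mul] at e0
  rw [Quaternion.imI_mul] at e1
  rw [Quaternion.imJ_mul] at e2
  rw [Quaternion.imK_mul] at e3
  have c0 := inj_sq_le (x := u.re) (s := u.imI ^ 2 + u.imJ ^ 2 + u.imK ^ 2) (by positivity)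
    (by linarith)
  have c1 := inj_sq_le (x := u.imI) (s := u.re ^ 2 + u.imJ ^ 2 + u.imK ^ 2) (by positivity)
    (by linarith)
  have c2 := inj_sq_le (x := u.imJ) (s := u.re ^ 2 + u.imI ^ 2 + u.imK ^ 2) (by positivity)
    (by linarith)
  have c3 := inj_sq_le (x := u.imK) (s := u.re ^ 2 + u.imI ^ 2 + u.imJ ^ 2) (by positivity)
    (by linarith)
  rcases c0 with c0 | c0 | c0 <;> rcases c1 with c1 | c1 | c1 <;> rcases c2 with c2 | c2 | c2 <;>
    rcases c3 with c3 | c3 | c3 <;> rw [c0, c1, c2, c3] at hnorm <;>
    first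
      | (exfalso; norm_num at hnorm; done)
      | (rw [c0, c1, c2, c3] at e0 e1 e2 e3
         first
          | (exfalso; omega)
          | (ext <;> linarith))

end Pool.Agent.TQS
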