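import Pool.Agent.TQS.Binary
import Pool.Agent.Results.MP_f126a2_nt.TunnellMod384
import Pool.Agent.Results.MP_f126a2_nt.TunnellMod192

/-!
Reduction of the Tunnell difference for `n = 2 p q`, with `p` and `q` primes congruent to
7 modulo 8, to numbers of representations as sums of three squares.
-/

namespace Pool.Agent.TQS.Red

open Pool.Agent.H24

/-- If `-d` is not a square modulo `p` then `x^2 + d y^2` does not represent `p q`. -/
theorem no_rep {p q : ℕ} (hp : p.Prime) (hq : q.Prime) (hne : p ≠ q) (d : ℤ)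
    (hd : ¬ IsSquare ((-d : ℤ) : ZMod p)) (x y : ℤ) :
    x ^ 2 + d * y ^ 2 ≠ ((p * q : ℕ) : ℤ) := by
  intro h
  have : Fact p.Prime := ⟨hp⟩
  have h1 : ((x ^ 2 + d * y ^ 2 : ℤ) : ZMod p) = 0 := by
    rw [h]
    push_cast
    simp
  push_cast at h1
  have hy : (y : ZMod p) = 0 := by
    by_contra hy
    apply hd
    refine ⟨(x : ZMod p) / y, ?_⟩
    push_cast
    field_simp
    linear_combination -h1
  have hx : (x : ZMod p) = 0 := by
    rw [hy] at h1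
    have : (x : ZMod p) ^ 2 = 0 := by
      linear_combination h1
    exact pow_eq_zero_iff (two_ne_zero) |>.1 this
  rw [ZMod.intCast_zmod_eq_zero_iff_dvd] at hx hy
  obtain ⟨a, rfl⟩ := hx
  obtain ⟨b, rfl⟩ := hy
  have h2 : (p : ℤ) * (p * (a ^ 2 + d * b ^ 2)) = p * q := by
    push_cast at h
    linear_combination h
  have hp0 : (p : ℤ) ≠ 0 := by exact_mod_cast hp.ne_zero
  have h3 := mul_left_cancel₀ hp0 h2
  have h4 : p ∣ q := by
    have : (p : ℤ) ∣ q := ⟨_, h3.symm⟩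
    exact_mod_cast this
  exact hne ((Nat.prime_dvd_prime_iff_eq hp hq).1 h4)

theorem not_sq_neg_one_mul {p : ℕ} (hp : p.Prime) (h8 : p % 8 = 7) (c : ℤ)
    (hc : ((c : ℤ) : ZMod p) ≠ 0) : ¬ IsSquare ((-(c ^ 2) : ℤ) : ZMod p) := by
  have : Fact p.Prime := ⟨hp⟩
  rintro ⟨r, hr⟩
  have h : IsSquare (-1 : ZMod p) := by
    refine ⟨r / c, ?_⟩
    push_cast at hr
    field_simp
    linear_combination hr
  rw [ZMod.exists_sq_eq_neg_one_iff] at h
  omega

theorem not_sq_neg_two_mul {p : ℕ} (hp : p.Prime) (h8 : p % 8 = 7) (c : ℤ)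
    (hc : ((c : ℤ) : ZMod p) ≠ 0) : ¬ IsSquare ((-(2 * c ^ 2) : ℤ) : ZMod p) := by
  have : Fact p.Prime := ⟨hp⟩
  rintro ⟨r, hr⟩
  have h : IsSquare (-2 : ZMod p) := by
    refine ⟨r / c, ?_⟩
    push_cast at hr
    field_simp
    linear_combination hr
  rw [ZMod.exists_sq_eq_neg_two_iff (by omega)] at h
  omega

theorem two_pow_ne {p : ℕ} (hp : p.Prime) (h8 : p % 8 = 7) (k : ℕ) :
    (((2 : ℤ) ^ k : ℤ) : ZMod p) ≠ 0 := by
  rw [Ne, ZMod.intCast_zmod_eq_zero_iff_dvd]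
  intro h
  have h1 : p ∣ 2 ^ k := by exact_mod_cast h
  have h2 := hp.dvd_of_dvd_pow h1
  have h3 := Nat.le_of_dvd (by norm_num) h2
  omega

theorem sigma_pq {p q : ℕ} (hp : p.Prime) (hq : q.Prime) (hne : p ≠ q) :
    ArithmeticFunction.sigma 1 (p * q) = (p + 1) * (q + 1) := by
  have hc : Nat.Coprime p q := (Nat.coprime_primes hp hq).2 hne
  have h := ArithmeticFunction.isMultiplicative_sigma (k := 1)
  rw [h.map_mul_of_coprime hc]
  have e : ∀ r : ℕ, r.Prime → ArithmeticFunction.sigma 1 r = r + 1 := by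
    intro r hr
    have := ArithmeticFunction.sigma_one_apply_prime_pow (p := r) (i := 1) hr
    rw [pow_one] at this
    rw [this, Finset.sum_range_succ, Finset.sum_range_succ, Finset.sum_range_zero]
    ring
  rw [e p hp, e q hq]

theorem not_sq_pq {p q : ℕ} (hp : p.Prime) (hq : q.Prime) (hne : p ≠ q) :
    ¬ IsSquare (p * q) := by
  rintro ⟨r, hr⟩
  have h1 : p ∣ r := by
    have : p ∣ r * r := ⟨q, hr.symm⟩
    rcases hp.dvd_mul.1 this with h | h <;> exact h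
  obtain ⟨s, rfl⟩ := h1
  have h2 : q = p * (s * s) := by
    apply Nat.eq_of_mul_eq_mul_left hp.pos
    rw [hr]
    ring
  have h3 : p ∣ q := ⟨_, h2⟩
  exact hne ((Nat.prime_dvd_prime_iff_eq hp hq).1 h3)

theorem r2_zero {d m : ℕ} (h : ∀ x y : ℤ, x ^ 2 + (d : ℤ) * y ^ 2 ≠ (m : ℤ)) : r2 d m = 0 := by
  have : {z : ℤ × ℤ | z.1 ^ 2 + (d : ℤ) * z.2 ^ 2 = (m : ℤ)} = ∅ := by
    ext ⟨x, y⟩
    simpa using h x y
  rw [r2, this, Set.ncard_empty]

theorem r2odd_zero {d m : ℕ} (h : ∀ x y : ℤ, x ^ 2 + (d : ℤ) * y ^ 2 ≠ (m : ℤ)) :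
    r2odd d m = 0 := by
  have : {z : ℤ × ℤ | z.1 ^ 2 + (d : ℤ) * z.2 ^ 2 = (m : ℤ) ∧ Odd z.2} = ∅ := by
    ext ⟨x, y⟩
    simp only [Set.mem_ofPred_eq, Set.mem_empty_iff_false, iff_false, not_and]
    intro hxy
    exact absurd hxy (h x y)
  rw [r2odd, this, Set.ncard_empty]

theorem cm_zero {d m : ℕ} (h : ∀ x y : ℤ, x ^ 2 + (d : ℤ) * y ^ 2 ≠ (m : ℤ)) :
    cm d m = 0 := by
  rw [cm]
  apply Finset.sum_eq_zero
  intro x _
  apply Finset.sum_eq_zero
  intro y _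
  rw [if_neg (h x y)]

/-- For `n = 2 p q` the Tunnell difference modulo 192 is a difference of numbers of
representations as sums of three squares. -/
theorem reduction0 {p q : ℕ} (hp : p.Prime) (hq : q.Prime) (hne : p ≠ q) (hp8 : p % 8 = 7)
    (hq8 : q % 8 = 7) :
    6 * (2 * (cardC (2 * (p * q)) : ℤ) - cardD (2 * (p * q))) ≡
      (r3 (p * q) : ℤ) - r3 (2 * (p * q)) [ZMOD 192] := by
  have hr16 : ∀ x y : ℤ, x ^ 2 + ((16 : ℕ) : ℤ) * y ^ 2 ≠ ((p * q : ℕ) : ℤ) := by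
    refine no_rep hp hq hne _ ?_
    have := not_sq_neg_one_mul hp hp8 (2 ^ 2) (two_pow_ne hp hp8 2)
    norm_num at this ⊢
    exact this
  have hr8 : ∀ x y : ℤ, x ^ 2 + ((8 : ℕ) : ℤ) * y ^ 2 ≠ ((p * q : ℕ) : ℤ) := by
    refine no_rep hp hq hne _ ?_
    have := not_sq_neg_two_mul hp hp8 (2 ^ 1) (two_pow_ne hp hp8 1)
    norm_num at this ⊢
    exact this
  have hr32 : ∀ x y : ℤ, x ^ 2 + ((32 : ℕ) : ℤ) * y ^ 2 ≠ ((p * q : ℕ) : ℤ) := by
    refine no_rep hp hq hne _ ?_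
    have := not_sq_neg_two_mul hp hp8 (2 ^ 2) (two_pow_ne hp hp8 2)
    norm_num at this ⊢
    exact this
  have hns := not_sq_pq hp hq hne
  have hdiv : 2 * (p * q) / 2 = p * q := by omega
  have hm8 : (p * q) % 8 = 1 := by rw [Nat.mul_mod, hp8, hq8]
  have hcase : (2 * (p * q)) % 32 = 2 ∨ (2 * (p * q)) % 32 = 18 := by omega
  rcases hcase with h32 | h32
  · have h := Pool.Agent.Results.MP_f126a2_nt.TunnellMod384.result.1 (2 * (p * q)) h32
      (by rw [hdiv]; exact hns)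
    rw [hdiv, cm_zero hr16, cm_zero hr8, r2odd_zero hr16, sigma_pq hp hq hne] at h
    have h' := Int.ModEq.of_dvd (show (192 : ℤ) ∣ 384 by norm_num) h
    refine h'.trans ?_
    obtain ⟨a, ha⟩ : ∃ a, p + 1 = 8 * a := ⟨(p + 1) / 8, by omega⟩
    obtain ⟨b, hb⟩ : ∃ b, q + 1 = 8 * b := ⟨(q + 1) / 8, by omega⟩
    rw [ha, hb]
    apply Int.ModEq.symm
    rw [Int.modEq_iff_dvd]
    refine ⟨a * b, ?_⟩
    push_cast
    ring
  · have h := Pool.Agent.Results.MP_f126a2_nt.TunnellMod192.result (2 * (p * q)) h32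
      (by rw [hdiv]; exact hns)
    rw [hdiv, r2_zero hr16, r2_zero hr32] at h
    simpa using h

end Pool.Agent.TQS.Red

namespace Pool.Agent.TQS

open Pool.Agent.H24

theorem reduction (p q : ℕ) (hp : p.Prime) (hq : q.Prime) (hpq : p ≠ q) (h7 : p % 8 = 7)
    (h7' : q % 8 = 7) :
    6 * (2 * (cardC (2 * (q * p)) : ℤ) - cardD (2 * (q * p))) ≡
      (r3 (q * p) : ℤ) - r3 (2 * (q * p)) [ZMOD 192] :=
  Red.reduction0 hq hp hpq.symm h7' h7

end Pool.Agent.TQS
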