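import Pool.Agent.TQS.Orb
import Pool.Agent.TQS.Red

/-!
Project TQS, final assembly.
-/

namespace Pool.Agent.TQS

open Pool.Agent.H24

theorem units_pow_two_mul (k : ℕ) : (-1 : ℤˣ) ^ (2 * k) = 1 := by
  rw [pow_mul]; simp

/-- The sums of three squares and the sign of conjugation. -/
theorem three_squares (p q : ℕ) (hp : p.Prime) (hq : q.Prime) (hpq : p ≠ q) (h7 : p % 8 = 7)
    (h7' : q % 8 = 7) : ∃ z : ℤ, (r3 (q * p) : ℤ) - r3 (2 * (q * p)) =
      48 * (1 - ((chi q p ^ ((p + 1) / 8) * chi p q ^ ((q + 1) / 8) : ℤˣ) : ℤ)) + 192 * z := by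
  have h1 := no_one p q hp hq hpq h7
  have h2 := no_two p q hp hq hpq h7
  have hm : (q * p) % 8 = 1 := by
    rw [Nat.mul_mod, h7, h7']
  have e1 := card_FF (q * p) hm h1 h2
  obtain ⟨w, e2⟩ := dvd_r3 (q * p) hm h1 h2
  have e3 := card_QV (q * p) h1 h2
  have e4 := card_fix (q * p) h1 h2
  have e5 := card_VV_mul p q hp hq hpq h7 h7'
  obtain ⟨k, e6, e7⟩ := sgn_invol (conjQ (q * p)) (by
    intro o
    induction o using Quotient.inductionOn with
    | h v =>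
      rw [conjQ_mk, conjQ_mk]
      congr 1
      exact Subtype.ext (star_star _))
  rw [sgn_conjQ p q hp hq hpq h7 h7'] at e7
  obtain ⟨a, ha⟩ : ∃ a, p = 8 * a + 7 := ⟨p / 8, by omega⟩
  obtain ⟨b, hb⟩ : ∃ b, q = 8 * b + 7 := ⟨q / 8, by omega⟩
  have e8 : Nat.card (QV (q * p)) = 8 * ((a + 1) * (b + 1)) := by
    have : 8 * Nat.card (QV (q * p)) = (q + 1) * (p + 1) := by rw [← e3, e5]
    rw [ha, hb] at this ⊢
    have h3 : (8 * b + 7 + 1) * (8 * a + 7 + 1) = 64 * ((a + 1) * (b + 1)) := by ring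
    omega
  generalize hN : (a + 1) * (b + 1) = N at e8
  generalize hF : Nat.card {o : QV (q * p) // conjQ (q * p) o = o} = F at e4 e6
  rw [e7]
  rcases Nat.even_or_odd' k with ⟨j, hj | hj⟩
  · rw [hj, units_pow_two_mul]
    refine ⟨(w : ℤ) - (2 * N - j), ?_⟩
    push_cast
    omega
  · rw [hj, pow_succ, units_pow_two_mul]
    refine ⟨(w : ℤ) - (2 * N - j), ?_⟩
    push_cast
    omega

/-- The Tunnell difference modulo 32. -/
theorem main (p q : ℕ) (hp : p.Prime) (hq : q.Prime) (hpq : p ≠ q) (h7 : p % 8 = 7)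
    (h7' : q % 8 = 7) :
    2 * (cardC (2 * (q * p)) : ℤ) - cardD (2 * (q * p)) ≡
      8 * (1 - ((chi q p ^ ((p + 1) / 8) * chi p q ^ ((q + 1) / 8) : ℤˣ) : ℤ)) [ZMOD 32] := by
  obtain ⟨z, hz⟩ := three_squares p q hp hq hpq h7 h7'
  have h := reduction p q hp hq hpq h7 h7'
  rw [hz] at h
  rw [Int.modEq_iff_dvd] at h ⊢
  obtain ⟨y, hy⟩ := h
  refine ⟨y - z, ?_⟩
  linarith

end Pool.Agent.TQS
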