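import Pool.Agent.TQS.QT

/-!
Equivariant permutations and quotients by a group action.
-/

namespace Pool.Agent.TQS

namespace QT

/-- An equivariant permutation induces a permutation of the orbits. -/
theorem exists_descend {G X : Type*} [Group G] [MulAction G X] (S : Equiv.Perm X)
    (hS : ∀ (g : G) (x : X), S (g • x) = g • S x) :
    ∃ T : Equiv.Perm (MulAction.orbitRel.Quotient G X),
      ∀ x, T (Quotient.mk _ x) = Quotient.mk _ (S x) := by
  refine ⟨Quotient.congr S ?_, ?_⟩
  · intro x y
    constructor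
    · rintro ⟨g, hg⟩
      exact ⟨g, by rw [← hg]; exact (hS g y).symm⟩
    · rintro ⟨g, hg⟩
      refine ⟨g, S.injective ?_⟩
      rw [← hg]
      exact hS g y
  · intro x
    rfl

theorem sgn_conj {G X V : Type*} [Group G] [MulAction G X] [MulAction G V] [Finite X] [Finite V]
    (φ : X ≃ V) (hφ : ∀ (g : G) (x : X), φ (g • x) = g • φ x) (S : X → X) (c : V → V)
    (h : ∀ x, φ (S x) = c (φ x))
    (T : Equiv.Perm (MulAction.orbitRel.Quotient G X))
    (hT : ∀ x, T (Quotient.mk _ x) = Quotient.mk _ (S x))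
    (c' : Equiv.Perm (MulAction.orbitRel.Quotient G V))
    (hc' : ∀ v, c' (Quotient.mk _ v) = Quotient.mk _ (c v)) : sgn T = sgn c' := by
  set e : MulAction.orbitRel.Quotient G X ≃ MulAction.orbitRel.Quotient G V :=
    Quotient.congr φ (by
      intro x y
      constructor
      · rintro ⟨g, hg⟩
        exact ⟨g, by rw [← hg]; exact (hφ g y).symm⟩
      · rintro ⟨g, hg⟩
        refine ⟨g, φ.injective ?_⟩
        rw [← hg]
        exact hφ g y) with he
  have hc : c' = e.permCongr T := by
    apply Equiv.ext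
    intro y
    obtain ⟨x, rfl⟩ := e.surjective y
    rw [Equiv.permCongr_apply, Equiv.symm_apply_apply]
    induction x using Quotient.inductionOn with
    | h x =>
      rw [hT]
      show c' (Quotient.mk _ (φ x)) = Quotient.mk _ (φ (S x))
      rw [hc', h]
  rw [hc, sgn_permCongr]

theorem card_fix {G V : Type*} [Group G] [Finite G] [MulAction G V] [Finite V]
    (hfree : ∀ (g : G) (a : V), g • a = a → g = 1) (c : V → V)
    (c' : Equiv.Perm (MulAction.orbitRel.Quotient G V))
    (hc' : ∀ v, c' (Quotient.mk _ v) = Quotient.mk _ (c v)) :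
    Nat.card {v : V // ∃ g : G, c v = g • v} = Nat.card G *
      Nat.card {y : MulAction.orbitRel.Quotient G V // c' y = y} := by
  rw [← Nat.card_prod]
  apply Nat.card_congr
  symm
  have key : ∀ v : V, (∃ g : G, c v = g • v) ↔ c' (Quotient.mk _ v) = Quotient.mk _ v := by
    intro v
    rw [hc']
    constructor
    · rintro ⟨g, hg⟩
      exact Quotient.sound ⟨g, hg.symm⟩
    · intro h
      obtain ⟨g, hg⟩ := Quotient.exact h
      exact ⟨g, hg.symm⟩
  have kout : ∀ y : MulAction.orbitRel.Quotient G V, c' y = y → ∀ g : G,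
      ∃ g' : G, c (g • y.out) = g' • (g • y.out) := by
    intro y hy g
    rw [key]
    have : (Quotient.mk (MulAction.orbitRel G V) (g • y.out)) = y := by
      conv_rhs => rw [← Quotient.out_eq y]
      exact Quotient.sound ⟨g, rfl⟩
    rw [this, hy]
  refine Equiv.ofBijective
    (fun x : G × {y : MulAction.orbitRel.Quotient G V // c' y = y} =>
      (⟨x.1 • x.2.1.out, kout x.2.1 x.2.2 x.1⟩ : {v : V // ∃ g : G, c v = g • v})) ⟨?_, ?_⟩
  · rintro ⟨g, o, ho⟩ ⟨g', o', ho'⟩ h
    have h := congrArg Subtype.val h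
    simp only at h
    have hoo : o = o' := by
      rw [← Quotient.out_eq o, ← Quotient.out_eq o']
      apply Quotient.sound
      refine ⟨g⁻¹ * g', ?_⟩
      show (g⁻¹ * g') • o'.out = o.out
      rw [mul_smul, ← h, inv_smul_smul]
    subst hoo
    have hg : g⁻¹ * g' = 1 := by
      apply hfree _ o.out
      rw [mul_smul, ← h, inv_smul_smul]
    rw [inv_mul_eq_one.1 hg]
  · rintro ⟨v, hv⟩
    have h : (MulAction.orbitRel G V) ((Quotient.mk (MulAction.orbitRel G V) v).out) v :=
      Quotient.mk_out v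
    obtain ⟨g, hg⟩ := h
    refine ⟨(g⁻¹, ⟨Quotient.mk (MulAction.orbitRel G V) v, (key v).1 hv⟩), ?_⟩
    apply Subtype.ext
    show g⁻¹ • (Quotient.mk (MulAction.orbitRel G V) v).out = v
    rw [← hg]
    show g⁻¹ • g • v = v
    rw [inv_smul_smul]

end QT

end Pool.Agent.TQS
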