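import Pool.Agent.TQS.Conj
import Pool.Agent.TQS.Fix
import Pool.Agent.TQS.QT2

/-!
Project TQS, module ORB: the fixed points of conjugation on the orbits.

PROOF. `free_VV`: for `g ≠ 1` (seven cases) `g • v = v` gives two vanishing coordinates
(`m = x² + y²`) or `imI = 0`, `imJ = ± imK` (`m = x² + 2y²`). So `card (VV m) = 8 * card (QV m)`.
`fix_iff`: `conjQ` fixes the orbit of `v` iff `act g v = star v` for some `g`, iff `v ∈ FF m`:
`r 0`: `imI = imJ = imK = 0`, impossible (`m = x² + 0²`); `r 1`: `imI = 0`, `imJ = imK`,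
`imK = - imJ`, impossible; `r 2`: `imI = 0`; `r 3`: impossible; `sr 0`: `imJ = 0`;
`sr 1`: `imJ = imK`; `sr 2`: `imK = 0`; `sr 3`: `imJ = - imK`.
The set `FF m` is stable under `G`, free action: `card (FF m) = 8 * card (fixed points)`.
-/

namespace Pool.Agent.TQS

private theorem orb_coords (g : G) (a : H) :
    (g = DihedralGroup.r 0 ∧ act g a = a) ∨
    (g = DihedralGroup.r 1 ∧ act g a = ⟨a.re, a.imI, -a.imK, a.imJ⟩) ∨
    (g = DihedralGroup.r 2 ∧ act g a = ⟨a.re, a.imI, -a.imJ, -a.imK⟩) ∨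
    (g = DihedralGroup.r 3 ∧ act g a = ⟨a.re, a.imI, a.imK, -a.imJ⟩) ∨
    (g = DihedralGroup.sr 0 ∧ act g a = ⟨a.re, -a.imI, a.imJ, -a.imK⟩) ∨
    (g = DihedralGroup.sr 1 ∧ act g a = ⟨a.re, -a.imI, -a.imK, -a.imJ⟩) ∨
    (g = DihedralGroup.sr 2 ∧ act g a = ⟨a.re, -a.imI, -a.imJ, a.imK⟩) ∨
    (g = DihedralGroup.sr 3 ∧ act g a = ⟨a.re, -a.imI, a.imK, a.imJ⟩) := by
  rcases g with i | i
  · rcases cases4 i with rfl | rfl | rfl | rfl
    · exact Or.inl ⟨rfl, rfl⟩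
    · exact Or.inr (Or.inl ⟨rfl, rfl⟩)
    · exact Or.inr (Or.inr (Or.inl ⟨rfl, rfl⟩))
    · exact Or.inr (Or.inr (Or.inr (Or.inl ⟨rfl, rfl⟩)))
  · rcases cases4 i with rfl | rfl | rfl | rfl
    · exact Or.inr (Or.inr (Or.inr (Or.inr (Or.inl ⟨rfl, rfl⟩))))
    · exact Or.inr (Or.inr (Or.inr (Or.inr (Or.inr (Or.inl ⟨rfl, rfl⟩)))))
    · refine Or.inr (Or.inr (Or.inr (Or.inr (Or.inr (Or.inr (Or.inl ⟨rfl, ?_⟩))))))
      change flp (rot 2 a) = _
      rw [rot2, flp]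
      ext <;> simp
    · refine Or.inr (Or.inr (Or.inr (Or.inr (Or.inr (Or.inr (Or.inr ⟨rfl, ?_⟩))))))
      change flp (rot 3 a) = _
      rw [rot3, flp]
      ext <;> simp

theorem free_VV (m : ℕ) (h1 : ∀ x y : ℤ, x ^ 2 + y ^ 2 ≠ (m : ℤ))
    (h2 : ∀ x y : ℤ, x ^ 2 + 2 * y ^ 2 ≠ (m : ℤ)) (g : G) (v : VV m) (h : g • v = v) : g = 1 := by
  have hn : (v : H).re ^ 2 + (v : H).imI ^ 2 + (v : H).imJ ^ 2 + (v : H).imK ^ 2 = (m : ℤ) := by
    rw [← normSq_eq]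
    exact v.2.2.2.2.2.2
  have hv : act g (v : H) = v := by
    rw [← smulV_val, h]
  obtain ⟨a, ha⟩ := v
  simp only at hn hv
  rcases orb_coords g a with ⟨e, he⟩ | ⟨e, he⟩ | ⟨e, he⟩ | ⟨e, he⟩ | ⟨e, he⟩ | ⟨e, he⟩ | ⟨e, he⟩ |
    ⟨e, he⟩
  · rw [e]
    exact DihedralGroup.one_def.symm
  all_goals
    exfalso
    rw [he] at hv
    have c1 := congrArg (fun z : H => z.imI) hv
    have c2 := congrArg (fun z : H => z.imJ) hv
    have c3 := congrArg (fun z : H => z.imK) hv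
    simp only at c1 c2 c3
  · have k2 : a.imJ = 0 := by omega
    have k3 : a.imK = 0 := by omega
    rw [k2, k3] at hn
    exact h1 a.re a.imI (by linarith)
  · have k2 : a.imJ = 0 := by omega
    have k3 : a.imK = 0 := by omega
    rw [k2, k3] at hn
    exact h1 a.re a.imI (by linarith)
  · have k2 : a.imJ = 0 := by omega
    have k3 : a.imK = 0 := by omega
    rw [k2, k3] at hn
    exact h1 a.re a.imI (by linarith)
  · have k2 : a.imI = 0 := by omega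
    have k3 : a.imK = 0 := by omega
    rw [k2, k3] at hn
    exact h1 a.re a.imJ (by linarith)
  · have k2 : a.imI = 0 := by omega
    have k3 : a.imK = -a.imJ := by omega
    rw [k2, k3] at hn
    exact h2 a.re a.imJ (by linarith)
  · have k2 : a.imI = 0 := by omega
    have k3 : a.imJ = 0 := by omega
    rw [k2, k3] at hn
    exact h1 a.re a.imK (by linarith)
  · have k2 : a.imI = 0 := by omega
    have k3 : a.imK = a.imJ := by omega
    rw [k2, k3] at hn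
    exact h2 a.re a.imJ (by linarith)

theorem card_QV (m : ℕ) (h1 : ∀ x y : ℤ, x ^ 2 + y ^ 2 ≠ (m : ℤ))
    (h2 : ∀ x y : ℤ, x ^ 2 + 2 * y ^ 2 ≠ (m : ℤ)) : Nat.card (VV m) = 8 * Nat.card (QV m) := by
  have h := QT.card_free (G := G) (A := VV m) (free_VV m h1 h2)
  rw [h, card_G]

private theorem orb_star (m : ℕ) (h1 : ∀ x y : ℤ, x ^ 2 + y ^ 2 ≠ (m : ℤ)) {a : H}
    (ha : a ∈ VV m) :
    (∃ g : G, star a = act g a) ↔
      (a.imI = 0 ∨ a.imJ = 0 ∨ a.imK = 0 ∨ a.imJ = a.imK ∨ a.imJ = - a.imK) := by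
  have hn : a.re ^ 2 + a.imI ^ 2 + a.imJ ^ 2 + a.imK ^ 2 = (m : ℤ) := by
    rw [← normSq_eq]
    exact ha.2.2.2.2.2
  constructor
  · rintro ⟨g, hv⟩
    rcases orb_coords g a with ⟨e, he⟩ | ⟨e, he⟩ | ⟨e, he⟩ | ⟨e, he⟩ | ⟨e, he⟩ | ⟨e, he⟩ |
      ⟨e, he⟩ | ⟨e, he⟩
    all_goals
      rw [he] at hv
      have c1 := congrArg (fun z : H => z.imI) hv
      have c2 := congrArg (fun z : H => z.imJ) hv
      have c3 := congrArg (fun z : H => z.imK) hv
      simp only [Quaternion.imI_star, Quaternion.imJ_star, Quaternion.imK_star] at c1 c2 c3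
      omega
  · have key : ∀ (g : G) (b : H), act g a = b → b.re = a.re → b.imI = -a.imI →
        b.imJ = -a.imJ → b.imK = -a.imK → ∃ g : G, star a = act g a := by
      intro g b h0 h1 h2 h3 h4
      refine ⟨g, ?_⟩
      rw [h0]
      ext
      · rw [Quaternion.re_star, h1]
      · rw [Quaternion.imI_star, h2]
      · rw [Quaternion.imJ_star, h3]
      · rw [Quaternion.imK_star, h4]
    rintro (h | h | h | h | h)
    · exact key (DihedralGroup.r 2) ⟨a.re, a.imI, -a.imJ, -a.imK⟩ rfl rfl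
        (by simp only; omega) rfl rfl
    · exact key (DihedralGroup.sr 0) ⟨a.re, -a.imI, a.imJ, -a.imK⟩ rfl rfl rfl
        (by simp only; omega) rfl
    · refine key (DihedralGroup.sr 2) ⟨a.re, -a.imI, -a.imJ, a.imK⟩ ?_ rfl rfl rfl
        (by simp only; omega)
      change flp (rot 2 a) = _
      rw [rot2, flp]
      ext <;> simp
    · exact key (DihedralGroup.sr 1) ⟨a.re, -a.imI, -a.imK, -a.imJ⟩ rfl rfl rfl
        (by simp only; omega) (by simp only; omega)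
    · refine key (DihedralGroup.sr 3) ⟨a.re, -a.imI, a.imK, a.imJ⟩ ?_ rfl rfl
        (by simp only; omega) (by simp only; omega)
      change flp (rot 3 a) = _
      rw [rot3, flp]
      ext <;> simp

theorem card_fix (m : ℕ) (h1 : ∀ x y : ℤ, x ^ 2 + y ^ 2 ≠ (m : ℤ))
    (h2 : ∀ x y : ℤ, x ^ 2 + 2 * y ^ 2 ≠ (m : ℤ)) :
    Nat.card (FF m) = 8 * Nat.card {o : QV m // conjQ m o = o} := by
  have h := QT.card_fix (G := G) (V := VV m) (free_VV m h1 h2) (conjV m) (conjQ m)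
    (fun v => conjQ_mk v)
  rw [card_G] at h
  rw [← h]
  refine Nat.card_congr ⟨fun v => ⟨⟨v.1, v.2.1⟩, ?_⟩, fun v => ⟨(v.1 : H), v.1.2, ?_⟩, ?_, ?_⟩
  · obtain ⟨g, hg⟩ := (orb_star m h1 v.2.1).2 v.2.2
    exact ⟨g, Subtype.ext hg⟩
  · obtain ⟨g, hg⟩ := v.2
    exact (orb_star m h1 v.1.2).1 ⟨g, congrArg Subtype.val hg⟩
  · intro v
    rfl
  · intro v
    rfl

end Pool.Agent.TQS
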