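import Pool.Agent.TQS.Inj

/-!
Project TQS, module PRD: the product map `AA q × AA p → VV (q * p)`.

`nm w` is the one of `w`, `-w` with positive real part.
PROOF of `nm_mem`: modulo 2 both factors are `i + j + k`, the product is `1` (real part
`b0 a0 - b1 a1 - b2 a2 - b3 a3` odd, so not zero; the other coordinates even), the norm is
multiplicative (`map_mul`). `nm_act`: `act g` is multiplicative, preserves the real part, commutes
with negation. `prod_inj`: `b * a = ± b' * a'`; multiply by `star b` on the left and `star a'` on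
the right: `q * (a * star a') = ± p * (star b * b')`; `p` divides every coordinate of
`q * (a * star a')`, `p ≠ q` primes, so `a * star a' = p * u` and `inj_of_dvd` gives `a = a'`; then
cancel `a` (norm nonzero): `b = ± b'`, positive real parts: `b = b'`.
`prod_surj`: an injective map between finite sets of the same cardinality is surjective.
-/

namespace Pool.Agent.TQS

open Quaternion

private theorem prd_cases (w : H) : nm w = w ∨ nm w = -w := by
  unfold nm
  split_ifs
  · left; rfl
  · right; rfl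

private theorem prd_par (x y : ℤ) : (x * y) % 2 = (x % 2) * (y % 2) % 2 := Int.mul_emod x y 2

theorem nm_mem (p q : ℕ) {b a : H} (hb : b ∈ AA q) (ha : a ∈ AA p) : nm (b * a) ∈ VV (q * p) := by
  obtain ⟨b0, b1, b2, b3, b4, b5⟩ := hb
  obtain ⟨a0, a1, a2, a3, a4, a5⟩ := ha
  have hn : normSq (b * a) = ((q * p : ℕ) : ℤ) := by
    rw [map_mul, a5, b5]
    push_cast
    ring
  have e0 : (b * a).re = b.re * a.re - b.imI * a.imI - b.imJ * a.imJ - b.imK * a.imK :=
    Quaternion.re_mul b a
  have e1 : (b * a).imI = b.re * a.imI + b.imI * a.re + b.imJ * a.imK - b.imK * a.imJ :=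
    Quaternion.imI_mul b a
  have e2 : (b * a).imJ = b.re * a.imJ - b.imI * a.imK + b.imJ * a.re + b.imK * a.imI :=
    Quaternion.imJ_mul b a
  have e3 : (b * a).imK = b.re * a.imK + b.imI * a.imJ - b.imJ * a.imI + b.imK * a.re :=
    Quaternion.imK_mul b a
  have q0 : (b * a).re % 2 = 1 := by
    rw [e0]
    have p1 := prd_par b.re a.re
    have p2 := prd_par b.imI a.imI
    have p3 := prd_par b.imJ a.imJ
    have p4 := prd_par b.imK a.imK
    rw [a1, b1] at p1
    rw [a2, b2] at p2
    rw [a3, b3] at p3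
    rw [a4, b4] at p4
    omega
  have q1 : (b * a).imI % 2 = 0 := by
    rw [e1]
    have p1 := prd_par b.re a.imI
    have p2 := prd_par b.imI a.re
    have p3 := prd_par b.imJ a.imK
    have p4 := prd_par b.imK a.imJ
    rw [b1] at p1
    rw [a1] at p2
    rw [a4, b3] at p3
    rw [a3, b4] at p4
    omega
  have q2 : (b * a).imJ % 2 = 0 := by
    rw [e2]
    have p1 := prd_par b.re a.imJ
    have p2 := prd_par b.imI a.imK
    have p3 := prd_par b.imJ a.re
    have p4 := prd_par b.imK a.imI
    rw [b1] at p1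
    rw [a4, b2] at p2
    rw [a1] at p3
    rw [a2, b4] at p4
    omega
  have q3 : (b * a).imK % 2 = 0 := by
    rw [e3]
    have p1 := prd_par b.re a.imK
    have p2 := prd_par b.imI a.imJ
    have p3 := prd_par b.imJ a.imI
    have p4 := prd_par b.imK a.re
    rw [b1] at p1
    rw [a3, b2] at p2
    rw [a2, b3] at p3
    rw [a1] at p4
    omega
  unfold nm
  split_ifs with h
  · exact ⟨h, q0, q1, q2, q3, hn⟩
  · refine ⟨?_, ?_, ?_, ?_, ?_, ?_⟩
    · rw [Quaternion.re_neg]; omega
    · rw [Quaternion.re_neg]; omega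
    · rw [Quaternion.imI_neg]; omega
    · rw [Quaternion.imJ_neg]; omega
    · rw [Quaternion.imK_neg]; omega
    · rw [Quaternion.normSq_neg]; exact hn

theorem nm_cases (w : H) : nm w = w ∨ nm w = -w := prd_cases w

theorem nm_eq_of_mem {m : ℕ} {v w : H} (hv : v ∈ VV m) (h : w = v ∨ w = -v) : nm w = v := by
  obtain ⟨v0, -⟩ := hv
  unfold nm
  rcases h with rfl | rfl
  · rw [if_pos v0]
  · rw [if_neg, neg_neg]
    rw [Quaternion.re_neg]
    omega

theorem nm_act (g : G) (w : H) : nm (act g w) = act g (nm w) := by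
  unfold nm
  rw [act_re]
  split_ifs
  · rfl
  · rw [act_neg]

theorem nm_star (w : H) : nm (star w) = star (nm w) := by
  unfold nm
  rw [Quaternion.re_star]
  split_ifs
  · rfl
  · rw [star_neg]

private theorem prd_dvd (p q : ℕ) (hp : p.Prime) (hq : q.Prime) (hpq : p ≠ q) {x y : H}
    (h : (q : H) * x = (p : H) * y) : ∃ u : H, x = (p : H) * u := by
  have key : ∀ s t : ℤ, (q : ℤ) * s = (p : ℤ) * t → ∃ w : ℤ, s = (p : ℤ) * w := by
    intro s t hst
    have hc : IsCoprime (p : ℤ) (q : ℤ) :=
      Nat.isCoprime_iff_coprime.2 ((Nat.coprime_primes hp hq).2 hpq)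
    exact hc.dvd_of_dvd_mul_left ⟨t, hst⟩
  have hre : ∀ (n : ℕ) (z : H), ((n : H) * z).re = (n : ℤ) * z.re ∧
      ((n : H) * z).imI = (n : ℤ) * z.imI ∧ ((n : H) * z).imJ = (n : ℤ) * z.imJ ∧
      ((n : H) * z).imK = (n : ℤ) * z.imK := by
    intro n z
    have e : (n : H) = ((n : ℤ) : H) := by push_cast; rfl
    rw [e]
    refine ⟨?_, ?_, ?_, ?_⟩ <;> simp
  obtain ⟨a1, a2, a3, a4⟩ := hre q x
  obtain ⟨b1, b2, b3, b4⟩ := hre p y
  rw [h] at a1 a2 a3 a4
  obtain ⟨w1, hw1⟩ := key x.re y.re (a1.symm.trans b1)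
  obtain ⟨w2, hw2⟩ := key x.imI y.imI (a2.symm.trans b2)
  obtain ⟨w3, hw3⟩ := key x.imJ y.imJ (a3.symm.trans b3)
  obtain ⟨w4, hw4⟩ := key x.imK y.imK (a4.symm.trans b4)
  refine ⟨⟨w1, w2, w3, w4⟩, ?_⟩
  obtain ⟨c1, c2, c3, c4⟩ := hre p ⟨w1, w2, w3, w4⟩
  ext
  · rw [c1]; exact hw1
  · rw [c2]; exact hw2
  · rw [c3]; exact hw3
  · rw [c4]; exact hw4

theorem prod_inj (p q : ℕ) (hp : p.Prime) (hq : q.Prime) (hpq : p ≠ q) {a a' b b' : H}
    (ha : a ∈ AA p) (ha' : a' ∈ AA p) (hb : b ∈ AA q) (hb' : b' ∈ AA q)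
    (h : nm (b * a) = nm (b' * a')) : b = b' ∧ a = a' := by
  have hsign : ∃ e : H, (e = 1 ∨ e = -1) ∧ b * a = e * (b' * a') := by
    rcases nm_cases (b * a) with h1 | h1 <;> rcases nm_cases (b' * a') with h2 | h2 <;>
      rw [h1, h2] at h
    · exact ⟨1, Or.inl rfl, by rw [h, one_mul]⟩
    · exact ⟨-1, Or.inr rfl, by rw [h]; simp⟩
    · exact ⟨-1, Or.inr rfl, by rw [← neg_neg (b * a), h]; simp⟩
    · exact ⟨1, Or.inl rfl, by rw [one_mul]; exact neg_injective h⟩
  obtain ⟨e, he, hba⟩ := hsign
  have hcomm : ∀ z : H, e * z = z * e := by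
    intro z
    rcases he with rfl | rfl <;> simp
  have hbb : star b * b = (q : H) := by
    rw [Quaternion.star_mul_self, hb.2.2.2.2.2]
    exact Quaternion.coe_natCast q
  have haa : a' * star a' = (p : H) := by
    rw [Quaternion.self_mul_star, ha'.2.2.2.2.2]
    exact Quaternion.coe_natCast p
  have hpc : ∀ z : H, z * (p : H) = (p : H) * z := fun z => (Nat.cast_commute p z).symm.eq
  have h1 : (q : H) * (a * star a') = (p : H) * (e * (star b * b')) := by
    calc (q : H) * (a * star a') = star b * (b * a) * star a' := by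
          rw [← hbb]; noncomm_ring
      _ = star b * (e * (b' * a')) * star a' := by rw [hba]
      _ = e * (star b * b') * (a' * star a') := by
          rw [hcomm (b' * a'), hcomm (star b * b')]
          have := hcomm (a' * star a')
          calc star b * (b' * a' * e) * star a'
              = star b * b' * (a' * (e * star a')) := by noncomm_ring
            _ = star b * b' * (a' * (star a' * e)) := by rw [hcomm (star a')]
            _ = star b * b' * (a' * star a' * e) := by noncomm_ring
            _ = star b * b' * (e * (a' * star a')) := by rw [← this]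
            _ = star b * b' * e * (a' * star a') := by noncomm_ring
      _ = (p : H) * (e * (star b * b')) := by rw [haa, hpc]
  obtain ⟨u, hu⟩ := prd_dvd p q hp hq hpq h1
  have haa' : a = a' := inj_of_dvd p hp.pos ha' ha hu
  subst haa'
  refine ⟨?_, rfl⟩
  have hp0 : (p : H) ≠ 0 := by
    intro h0
    have h2 := congrArg (fun z : H => z.re) h0
    have h3 : (((p : ℕ) : H)).re = (p : ℤ) := by simp
    have h4 : ((p : ℕ) : ℤ) = 0 := by
      rw [← h3]
      exact h2
    have := hp.pos
    omega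
  have h2 : (p : H) * b = (p : H) * (e * b') := by
    rw [← hpc, ← hpc, ← haa]
    calc b * (a * star a) = (b * a) * star a := by noncomm_ring
      _ = (e * (b' * a)) * star a := by rw [hba]
      _ = e * b' * (a * star a) := by noncomm_ring
  have hre : ∀ z : H, ((p : H) * z).re = (p : ℤ) * z.re := by
    intro z
    have e : (p : H) = ((p : ℤ) : H) := by push_cast; rfl
    rw [e]
    simp
  have h3 : b = e * b' := mul_left_cancel₀ hp0 h2
  rcases he with rfl | rfl
  · rw [h3, one_mul]
  · exfalso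
    have h4 := congrArg (fun z : H => z.re) h3
    have h5 : b.re = -b'.re := by simpa using h4
    have h6 := hb.1
    have h7 := hb'.1
    omega

theorem prod_surj (p q : ℕ) (hp : p.Prime) (hq : q.Prime) (hpq : p ≠ q)
    (hcp : Nat.card (AA p) = p + 1) (hcq : Nat.card (AA q) = q + 1)
    (hc : Nat.card (VV (q * p)) = (q + 1) * (p + 1)) (v : H) (hv : v ∈ VV (q * p)) :
    ∃ b ∈ AA q, ∃ a ∈ AA p, nm (b * a) = v := by
  let F : AA q × AA p → VV (q * p) := fun x => ⟨nm (x.1 * x.2), nm_mem p q x.1.2 x.2.2⟩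
  have hinj : Function.Injective F := by
    rintro ⟨b, a⟩ ⟨b', a'⟩ h
    have h1 : nm ((b : H) * a) = nm ((b' : H) * a') := congrArg Subtype.val h
    obtain ⟨e1, e2⟩ := prod_inj p q hp hq hpq a.2 a'.2 b.2 b'.2 h1
    exact Prod.ext (Subtype.ext e1) (Subtype.ext e2)
  have hcard : Nat.card (AA q × AA p) = Nat.card (VV (q * p)) := by
    rw [Nat.card_prod, hcp, hcq, hc]
  have hbij : Function.Bijective F := by
    have : Fintype (AA q × AA p) := Fintype.ofFinite _
    have : Fintype (VV (q * p)) := Fintype.ofFinite _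
    rw [Fintype.bijective_iff_injective_and_card]
    refine ⟨hinj, ?_⟩
    rw [← Nat.card_eq_fintype_card, ← Nat.card_eq_fintype_card, hcard]
  obtain ⟨⟨b, a⟩, h⟩ := hbij.2 ⟨v, hv⟩
  exact ⟨b, b.2, a, a.2, congrArg Subtype.val h⟩

end Pool.Agent.TQS
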