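import Pool.Agent.TQS.Defs

/-!
The sign of a permutation of a quotient by a group action, fibred over a free action.
-/

namespace Pool.Agent.TQS

namespace QT

theorem sgn_eq_sign {α : Type*} [Fintype α] [DecidableEq α] (s : Equiv.Perm α) :
    sgn s = Equiv.Perm.sign s := by
  unfold sgn
  have h1 : Fintype.ofFinite α = ‹Fintype α› := Subsingleton.elim _ _
  have h2 : (fun a b : α => Classical.propDecidable (a = b)) = ‹DecidableEq α› :=
    Subsingleton.elim _ _
  rw [h1, h2]

theorem sgn_permCongr {α β : Type*} [Finite α] [Finite β] (e : α ≃ β) (s : Equiv.Perm α) :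
    sgn (e.permCongr s) = sgn s := by
  classical
  have : Fintype α := Fintype.ofFinite α
  have : Fintype β := Fintype.ofFinite β
  rw [sgn_eq_sign, sgn_eq_sign, Equiv.Perm.sign_permCongr]

theorem sgn_mul {α : Type*} [Finite α] (s t : Equiv.Perm α) : sgn (s * t) = sgn s * sgn t := by
  classical
  have : Fintype α := Fintype.ofFinite α
  rw [sgn_eq_sign, sgn_eq_sign, sgn_eq_sign, Equiv.Perm.sign_mul]

theorem card_free {G A : Type*} [Group G] [Finite G] [MulAction G A] [Finite A]
    (hfree : ∀ (g : G) (a : A), g • a = a → g = 1) :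
    Nat.card A = Nat.card G * Nat.card (MulAction.orbitRel.Quotient G A) := by
  rw [← Nat.card_prod]
  apply Nat.card_congr
  symm
  refine Equiv.ofBijective (fun x : G × MulAction.orbitRel.Quotient G A => x.1 • x.2.out) ⟨?_, ?_⟩
  · rintro ⟨g, o⟩ ⟨g', o'⟩ h
    simp only at h
    have ho : o = o' := by
      rw [← Quotient.out_eq o, ← Quotient.out_eq o']
      apply Quotient.sound
      refine ⟨g⁻¹ * g', ?_⟩
      show (g⁻¹ * g') • o'.out = o.out
      rw [mul_smul, ← h, inv_smul_smul]
    subst ho
    have hg : g⁻¹ * g' = 1 := by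
      apply hfree _ o.out
      rw [mul_smul, ← h, inv_smul_smul]
    rw [inv_mul_eq_one.1 hg]
  · intro a
    have h : (MulAction.orbitRel G A) ((Quotient.mk (MulAction.orbitRel G A) a).out) a :=
      Quotient.mk_out a
    obtain ⟨g, hg⟩ := h
    refine ⟨(g⁻¹, Quotient.mk (MulAction.orbitRel G A) a), ?_⟩
    show g⁻¹ • (Quotient.mk (MulAction.orbitRel G A) a).out = a
    rw [← hg]
    show g⁻¹ • g • a = a
    rw [inv_smul_smul]

/-- A permutation of `(B x A) / G` which is fibred over `A`, for a free action on `A`. -/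
theorem sgn_quot {G A B : Type*} [Group G] [Finite G] [MulAction G A] [MulAction G B]
    [Finite A] [Finite B] (hfree : ∀ (g : G) (a : A), g • a = a → g = 1)
    (f : A → Equiv.Perm B)
    (s : ℤˣ) (hs : ∀ a, sgn (f a) = s)
    (T : Equiv.Perm (MulAction.orbitRel.Quotient G (B × A)))
    (hT : ∀ (b : B) (a : A), T (Quotient.mk _ (b, a)) = Quotient.mk _ (f a b, a)) :
    sgn T = s ^ (Nat.card A / Nat.card G) := by
  classical
  set QA := MulAction.orbitRel.Quotient G A with hQA
  set e0 : B × QA → MulAction.orbitRel.Quotient G (B × A) :=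
    fun x => Quotient.mk _ (x.1, x.2.out) with he0
  have hbij : Function.Bijective e0 := by
    constructor
    · rintro ⟨b, o⟩ ⟨b', o'⟩ h
      have h' : (MulAction.orbitRel G (B × A)) (b, o.out) (b', o'.out) := Quotient.exact h
      obtain ⟨g, hg⟩ := h'
      have hg1 : g • b' = b := congrArg Prod.fst hg
      have hg2 : g • o'.out = o.out := congrArg Prod.snd hg
      have ho : o = o' := by
        rw [← Quotient.out_eq o, ← Quotient.out_eq o']
        exact Quotient.sound ⟨g, hg2⟩
      subst ho
      have hg3 := hfree g _ hg2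
      rw [hg3, one_smul] at hg1
      rw [hg1]
    · intro x
      induction x using Quotient.inductionOn with
      | h x =>
        obtain ⟨b, a⟩ := x
        have h : (MulAction.orbitRel G A) ((Quotient.mk (MulAction.orbitRel G A) a).out) a :=
          Quotient.mk_out a
        obtain ⟨g, hg⟩ := h
        refine ⟨(g • b, Quotient.mk (MulAction.orbitRel G A) a), ?_⟩
        apply Quotient.sound
        refine ⟨g, ?_⟩
        exact Prod.ext rfl hg
  set e : B × QA ≃ MulAction.orbitRel.Quotient G (B × A) := Equiv.ofBijective e0 hbij with he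
  have : Fintype B := Fintype.ofFinite B
  have : Fintype QA := Fintype.ofFinite QA
  have hTe : T = e.permCongr (Equiv.prodCongrLeft (fun o : QA => f o.out)) := by
    apply Equiv.ext
    intro x
    obtain ⟨y, rfl⟩ := e.surjective x
    rw [Equiv.permCongr_apply, Equiv.symm_apply_apply]
    exact hT y.1 y.2.out
  rw [hTe, sgn_permCongr, sgn_eq_sign, Equiv.Perm.sign_prodCongrLeft]
  have h1 : ∀ o : QA, Equiv.Perm.sign (f o.out) = s := by
    intro o
    rw [← sgn_eq_sign]
    exact hs _
  rw [Finset.prod_congr rfl (fun o _ => h1 o), Finset.prod_const, Finset.card_univ,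
    ← Nat.card_eq_fintype_card, card_free hfree, Nat.mul_div_cancel_left _ Nat.card_pos]

/-- The same, for a permutation fibred over the first factor. -/
theorem sgn_quot' {G A B : Type*} [Group G] [Finite G] [MulAction G A] [MulAction G B]
    [Finite A] [Finite B] (hfree : ∀ (g : G) (b : B), g • b = b → g = 1)
    (f : B → Equiv.Perm A)
    (s : ℤˣ) (hs : ∀ b, sgn (f b) = s)
    (T : Equiv.Perm (MulAction.orbitRel.Quotient G (B × A)))
    (hT : ∀ (b : B) (a : A), T (Quotient.mk _ (b, a)) = Quotient.mk _ (b, f b a)) :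
    sgn T = s ^ (Nat.card B / Nat.card G) := by
  classical
  set QB := MulAction.orbitRel.Quotient G B with hQB
  set e0 : QB × A → MulAction.orbitRel.Quotient G (B × A) :=
    fun x => Quotient.mk _ (x.1.out, x.2) with he0
  have hbij : Function.Bijective e0 := by
    constructor
    · rintro ⟨o, a⟩ ⟨o', a'⟩ h
      have h' : (MulAction.orbitRel G (B × A)) (o.out, a) (o'.out, a') := Quotient.exact h
      obtain ⟨g, hg⟩ := h'
      have hg1 : g • o'.out = o.out := congrArg Prod.fst hg
      have hg2 : g • a' = a := congrArg Prod.snd hg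
      have ho : o = o' := by
        rw [← Quotient.out_eq o, ← Quotient.out_eq o']
        exact Quotient.sound ⟨g, hg1⟩
      subst ho
      have hg3 := hfree g _ hg1
      rw [hg3, one_smul] at hg2
      rw [hg2]
    · intro x
      induction x using Quotient.inductionOn with
      | h x =>
        obtain ⟨b, a⟩ := x
        have h : (MulAction.orbitRel G B) ((Quotient.mk (MulAction.orbitRel G B) b).out) b :=
          Quotient.mk_out b
        obtain ⟨g, hg⟩ := h
        refine ⟨(Quotient.mk (MulAction.orbitRel G B) b, g • a), ?_⟩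
        apply Quotient.sound
        refine ⟨g, ?_⟩
        exact Prod.ext hg rfl
  set e : QB × A ≃ MulAction.orbitRel.Quotient G (B × A) := Equiv.ofBijective e0 hbij with he
  have : Fintype A := Fintype.ofFinite A
  have : Fintype QB := Fintype.ofFinite QB
  have hTe : T = e.permCongr (Equiv.prodCongrRight (fun o : QB => f o.out)) := by
    apply Equiv.ext
    intro x
    obtain ⟨y, rfl⟩ := e.surjective x
    rw [Equiv.permCongr_apply, Equiv.symm_apply_apply]
    exact hT y.1.out y.2
  rw [hTe, sgn_permCongr, sgn_eq_sign, Equiv.Perm.sign_prodCongrRight]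
  have h1 : ∀ o : QB, Equiv.Perm.sign (f o.out) = s := by
    intro o
    rw [← sgn_eq_sign]
    exact hs _
  rw [Finset.prod_congr rfl (fun o _ => h1 o), Finset.prod_const, Finset.card_univ,
    ← Nat.card_eq_fintype_card, card_free hfree, Nat.mul_div_cancel_left _ Nat.card_pos]

/-- The sign of an involution in terms of the number of its fixed points, when the number of
points is divisible by four. -/
theorem sgn_invol {X : Type*} [Finite X] (c : Equiv.Perm X) (hc : ∀ x, c (c x) = x)
    (h4 : 4 ∣ Nat.card X) :
    ∃ n : ℕ, Nat.card {x : X // c x = x} = 2 * n ∧ sgn c = (-1) ^ n := by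
  classical
  have : Fintype X := Fintype.ofFinite X
  have hc2 : c ^ 2 = 1 := by
    ext x
    rw [pow_two, Equiv.Perm.mul_apply, hc, Equiv.Perm.one_apply]
  have h1 := Equiv.Perm.cycleType_of_pow_prime_eq_one (p := 2) hc2
  have h2 : c.cycleType.sum = 2 * Multiset.card c.cycleType := by
    rw [h1]
    simp [mul_comm]
  have h3 := Equiv.Perm.sum_cycleType_le c
  have h5 : Nat.card {x : X // c x = x} = Fintype.card X - c.cycleType.sum := by
    rw [← Equiv.Perm.card_fixedPoints, Nat.card_eq_fintype_card]
    apply Fintype.card_congr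
    exact Equiv.refl _
  obtain ⟨k, hk⟩ := h4
  rw [Nat.card_eq_fintype_card] at hk
  refine ⟨2 * k - Multiset.card c.cycleType, ?_, ?_⟩
  · rw [h5, h2, hk]
    omega
  · rw [sgn_eq_sign, Equiv.Perm.sign_of_pow_two_eq_one hc2, Equiv.Perm.card_fixedPoints]
    have e1 : (Fintype.card X - (Fintype.card X - c.cycleType.sum)) / 2
        = Multiset.card c.cycleType := by omega
    rw [e1]
    have e2 : 2 * k = (2 * k - Multiset.card c.cycleType) + Multiset.card c.cycleType := by omega
    have e3 : ((-1 : ℤˣ)) ^ (2 * k) = 1 := by rw [pow_mul]; simp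
    have e4 : ((-1 : ℤˣ)) ^ (2 * k - Multiset.card c.cycleType)
        * (-1) ^ (Multiset.card c.cycleType) = 1 := by
      rw [← pow_add, ← e2, e3]
    have e5 : ((-1 : ℤˣ)) ^ (Multiset.card c.cycleType) * (-1) ^ (Multiset.card c.cycleType) = 1 := by
      rw [← pow_add, ← two_mul, pow_mul]
      simp
    exact mul_right_cancel (e5.trans e4.symm)

/-- A fixed point free involution of a set with a number of points divisible by four is even. -/
theorem sgn_invol_free {X : Type*} [Finite X] (c : Equiv.Perm X) (hc : ∀ x, c (c x) = x)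
    (hne : ∀ x, c x ≠ x) (h4 : 4 ∣ Nat.card X) : sgn c = 1 := by
  obtain ⟨n, h1, h2⟩ := sgn_invol c hc h4
  have : IsEmpty {x : X // c x = x} := ⟨fun x => hne x.1 x.2⟩
  rw [Nat.card_of_isEmpty] at h1
  have h3 : n = 0 := by omega
  rw [h2, h3, pow_zero]

end QT

end Pool.Agent.TQS
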