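import Pool.Agent.TQS.Defs

/-!
Project TQS, module SGN (Mathlib only): the sign `sgn` of permutations of finite types.

Unfold `sgn`; use `Equiv.Perm.sign_mul`, `Equiv.Perm.sign_permCongr` (or `sign_symm_trans_trans`),
and change the instances with `Subsingleton.elim` / `convert`.
For `sgn_invol`: an involution is a product of disjoint transpositions; the support has
`card α - card {fixed points}` elements, its cycle type is `replicate k 2` with `2k = card support`
(look for `Equiv.Perm.cycleType_of_...`, `Equiv.Perm.sign_of_cycleType`,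
`Equiv.Perm.sum_cycleType`, or `pow_prime` lemmas) so the sign is `(-1) ^ k`.
For `sgn_fibre`: `Equiv.Perm.sign_prodCongrLeft` / `sign_prodCongrRight`.
-/

namespace Pool.Agent.TQS

theorem sgn_eq {α : Type*} [Finite α] [Fintype α] [DecidableEq α] (s : Equiv.Perm α) :
    sgn s = Equiv.Perm.sign s := by
  unfold sgn
  have h1 : Fintype.ofFinite α = ‹Fintype α› := Subsingleton.elim _ _
  have h2 : (fun a b : α => Classical.propDecidable (a = b)) = ‹DecidableEq α› :=
    Subsingleton.elim _ _
  rw [h1, h2]

theorem sgn_mul {α : Type*} [Finite α] (s t : Equiv.Perm α) : sgn (s * t) = sgn s * sgn t := by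
  classical
  have : Fintype α := Fintype.ofFinite α
  rw [sgn_eq, sgn_eq, sgn_eq, Equiv.Perm.sign_mul]

theorem sgn_permCongr {α β : Type*} [Finite α] [Finite β] (e : α ≃ β) (s : Equiv.Perm α) :
    sgn (e.permCongr s) = sgn s := by
  classical
  have : Fintype α := Fintype.ofFinite α
  have : Fintype β := Fintype.ofFinite β
  rw [sgn_eq, sgn_eq, Equiv.Perm.sign_permCongr]

theorem sgn_invol {α : Type*} [Finite α] (s : Equiv.Perm α) (h : ∀ x, s (s x) = x) :
    ∃ k : ℕ, Nat.card α = Nat.card {x : α // s x = x} + 2 * k ∧ sgn s = (-1) ^ k := by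
  classical
  have : Fintype α := Fintype.ofFinite α
  have hc2 : s ^ 2 = 1 := by
    ext x
    rw [pow_two, Equiv.Perm.mul_apply, h, Equiv.Perm.one_apply]
  have h1 := Equiv.Perm.cycleType_of_pow_prime_eq_one (p := 2) hc2
  have h2 : s.cycleType.sum = 2 * Multiset.card s.cycleType := by
    rw [h1]
    simp [mul_comm]
  have h3 := Equiv.Perm.sum_cycleType_le s
  have h5 : Nat.card {x : α // s x = x} = Fintype.card α - s.cycleType.sum := by
    rw [← Equiv.Perm.card_fixedPoints, Nat.card_eq_fintype_card]
    apply Fintype.card_congr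
    exact Equiv.refl _
  refine ⟨Multiset.card s.cycleType, ?_, ?_⟩
  · rw [h5, Nat.card_eq_fintype_card]
    omega
  · rw [sgn_eq, Equiv.Perm.sign_of_cycleType, h2, pow_add, pow_mul]
    simp

/-- A fibrewise permutation, all of whose fibres have sign `e`. -/
theorem sgn_fibre {X T : Type*} [Finite X] [Finite T] (r : T → Equiv.Perm X) (e : ℤˣ)
    (he : ∀ t, sgn (r t) = e) (F : Equiv.Perm (X × T)) (hF : ∀ x t, F (x, t) = (r t x, t)) :
    sgn F = e ^ Nat.card T := by
  classical
  have : Fintype X := Fintype.ofFinite X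
  have : Fintype T := Fintype.ofFinite T
  have hF' : F = Equiv.prodCongrLeft r := by
    ext ⟨x, t⟩
    · rw [hF]
      rfl
    · rw [hF]
      rfl
  rw [sgn_eq, hF', Equiv.Perm.sign_prodCongrLeft, Nat.card_eq_fintype_card,
    ← Finset.card_univ, ← Finset.prod_const]
  exact Finset.prod_congr rfl fun t _ => by rw [← sgn_eq]; exact he t

end Pool.Agent.TQS
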