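import Pool.Agent.TQS.Prod
import Pool.Agent.TQS.Tau
import Pool.Agent.TQS.Card

/-!
Project TQS, module SWP: exchange of the two factors.

For `(b, a)` in `AA q × AA p` there is a unique pair `(a'', b'')` in `AA p × AA q` with
`nm (b * a) = nm (a'' * b'')`; `b''` depends on `b` by a permutation `ρ a` (for fixed `a`) of sign
`chi q p`, and `a''` depends on `a` by a permutation `μ b''` (for fixed `b''`) of sign `chi p q`.

PROOF. `ρ a` is the permutation of `exists_tau q` for `c = star a` (norm `p`, prime to `q`).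
Given `b * a = ± a'' * b''` (exists by `card_VV_mul`, `prod_surj` for the pair `(q, p)` exchanged):
`b'' * star a * star b = star (± star b'' ... )`: indeed `b * a * star b'' = ± a'' * b'' * star b''
= ± q * a''`, and `b'' * star a * star b = star (b * a * star b'') = ± q * star a''`. So by the
uniqueness `tau_unique q` with `c = star a`: `b'' = ρ a b`.
`μ b''` is the permutation of `exists_tau p` for `c = b''` : `a'' * b'' * star a = ± b * a * star a
= ± p * b`. So `a'' = μ b'' a` by `tau_unique p`.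
Equivariance: `act g b * act g a = ± act g a'' * act g b''`, so `act g b'' = ρ (act g a) (act g b)`
and `act g a'' = μ (act g b'') (act g a)`; for the latter, given `(b'', a)` take `b = (ρ a)⁻¹ b''`.
-/

namespace Pool.Agent.TQS

open Quaternion

private theorem swp_not_dvd {p q : ℕ} (hp : p.Prime) (hq : q.Prime) (hpq : p ≠ q) :
    ¬ (q : ℤ) ∣ (p : ℤ) := by
  intro h
  have h1 : q ∣ p := by exact_mod_cast h
  rcases (Nat.dvd_prime hp).1 h1 with h2 | h2
  · exact hq.one_lt.ne' h2
  · exact hpq h2.symm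

private theorem swp_cast (n : ℕ) : (((n : ℤ) : H)) = (n : H) := by
  norm_cast

/-- From `b * a = ± a'' * b''` one gets the congruence for `b''`. -/
private theorem swp_b {q : ℕ} {a b a' b' : H} (hb' : b' ∈ AA q)
    (h : b * a = a' * b' ∨ b * a = -(a' * b')) :
    ∃ u : H, b' * star a * star b = (q : H) * u := by
  have hn : b' * star b' = (q : H) := by
    rw [Quaternion.self_mul_star, hb'.2.2.2.2.2]
    norm_cast
  have h1 : b * a * star b' = a' * (q : H) ∨ b * a * star b' = -(a' * (q : H)) := by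
    rcases h with h | h
    · left
      rw [h, mul_assoc, hn]
    · right
      rw [h, neg_mul, mul_assoc, hn]
  have h2 : b' * star a * star b = star (b * a * star b') := by
    rw [star_mul, star_mul, star_star, mul_assoc]
  have h3 : star (a' * (q : H)) = (q : H) * star a' := by
    rw [star_mul, star_natCast]
  rcases h1 with h1 | h1
  · exact ⟨star a', by rw [h2, h1, h3]⟩
  · exact ⟨-star a', by rw [h2, h1, star_neg, h3, mul_neg]⟩

private theorem swp_a {p : ℕ} {a b a' b' : H} (ha : a ∈ AA p)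
    (h : b * a = a' * b' ∨ b * a = -(a' * b')) :
    ∃ u : H, a' * b' * star a = (p : H) * u := by
  have hn : a * star a = (p : H) := by
    rw [Quaternion.self_mul_star, ha.2.2.2.2.2]
    norm_cast
  have hc : b * (p : H) = (p : H) * b := (Nat.cast_comm p b).symm
  rcases h with h | h
  · refine ⟨b, ?_⟩
    rw [← h, mul_assoc, hn, hc]
  · refine ⟨-b, ?_⟩
    have h1 : a' * b' = -(b * a) := by rw [h, neg_neg]
    rw [h1, neg_mul, mul_assoc, hn, hc, mul_neg]

private theorem swp_nm {w w' : H} (h : nm w = nm w') : w = w' ∨ w = -w' := by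
  rcases nm_cases w with h1 | h1 <;> rcases nm_cases w' with h2 | h2
  · left
    rw [← h1, h, h2]
  · right
    rw [← h1, h, h2]
  · right
    rw [← h2, ← h, h1, neg_neg]
  · left
    have h3 : -w = -w' := by rw [← h1, h, h2]
    exact neg_injective h3

private theorem swp_nm' {w w' : H} (hw : w'.re ≠ 0) (h : w = w' ∨ w = -w') : nm w = nm w' := by
  rcases h with rfl | rfl
  · rfl
  · unfold nm
    rw [Quaternion.re_neg]
    rcases lt_or_gt_of_ne hw with h1 | h1
    · rw [if_pos (by omega), if_neg (by omega)]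
    · rw [if_neg (by omega), if_pos (by omega), neg_neg]

theorem exists_swap (p q : ℕ) (hp : p.Prime) (hq : q.Prime) (hpq : p ≠ q) (h7 : p % 8 = 7)
    (h7' : q % 8 = 7) :
    ∃ (ρ : AA p → Equiv.Perm (AA q)) (μ : AA q → Equiv.Perm (AA p)),
      (∀ a, sgn (ρ a) = chi q p) ∧ (∀ b, sgn (μ b) = chi p q) ∧
      (∀ (g : G) (a : AA p) (b : AA q), ρ (g • a) (g • b) = g • ρ a b) ∧
      (∀ (g : G) (b : AA q) (a : AA p), μ (g • b) (g • a) = g • μ b a) ∧
      (∀ (a : AA p) (b : AA q),
        nm ((b : H) * (a : H)) = nm ((μ (ρ a b) a : H) * (ρ a b : H))) := by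
  have hcp := card_AA p hp h7
  have hcq := card_AA q hq h7'
  have hc' : Nat.card (VV (p * q)) = (p + 1) * (q + 1) :=
    card_VV_mul q p hq hp (Ne.symm hpq) h7' h7
  have hndp : ¬ (q : ℤ) ∣ (p : ℤ) := swp_not_dvd hp hq hpq
  have hndq : ¬ (p : ℤ) ∣ (q : ℤ) := swp_not_dvd hq hp (Ne.symm hpq)
  have hNa : ∀ a : AA p, normSq (star (a : H)) = (p : ℤ) := by
    intro a
    rw [Quaternion.normSq_star]
    exact a.2.2.2.2.2.2
  have hNb : ∀ b : AA q, normSq (b : H) = (q : ℤ) := fun b => b.2.2.2.2.2.2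
  have hρe : ∀ a : AA p, ∃ t : Equiv.Perm (AA q), sgn t = chi q p ∧
      ∀ b : AA q, ∃ u : H, (t b : H) * star (a : H) * star (b : H) = (q : H) * u := by
    intro a
    obtain ⟨t, h1, h2⟩ := exists_tau q hq h7' hcq (star (a : H)) (by rw [hNa]; exact hndp)
    refine ⟨t, ?_, h2⟩
    rw [h1, hNa]
  have hμe : ∀ b : AA q, ∃ t : Equiv.Perm (AA p), sgn t = chi p q ∧
      ∀ a : AA p, ∃ u : H, (t a : H) * (b : H) * star (a : H) = (p : H) * u := by
    intro b
    obtain ⟨t, h1, h2⟩ := exists_tau p hp h7 hcp (b : H) (by rw [hNb]; exact hndq)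
    refine ⟨t, ?_, h2⟩
    rw [h1, hNb]
  choose ρ hρs hρ using hρe
  choose μ hμs hμ using hμe
  have hchar : ∀ (a a' : AA p) (b b' : AA q),
      ((b : H) * (a : H) = (a' : H) * (b' : H) ∨ (b : H) * (a : H) = -((a' : H) * (b' : H))) →
      b' = ρ a b ∧ a' = μ b' a := by
    intro a a' b b' h
    constructor
    · apply Subtype.ext
      exact tau_unique q hq h7' (star (a : H)) (by rw [hNa]; exact hndp) b.2 b'.2 (ρ a b).2
        (swp_b b'.2 h) (hρ a b)
    · apply Subtype.ext
      exact tau_unique p hp h7 (b' : H) (by rw [hNb]; exact hndq) a.2 a'.2 (μ b' a).2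
        (swp_a a.2 h) (hμ b' a)
  have hexch : ∀ (a : AA p) (b : AA q),
      ((b : H) * (a : H) = (μ (ρ a b) a : H) * (ρ a b : H) ∨
        (b : H) * (a : H) = -((μ (ρ a b) a : H) * (ρ a b : H))) := by
    intro a b
    have hv : nm ((b : H) * (a : H)) ∈ VV (p * q) := by
      rw [mul_comm p q]
      exact nm_mem p q b.2 a.2
    obtain ⟨a', ha', b', hb', h⟩ := prod_surj q p hq hp (Ne.symm hpq) hcq hcp hc' _ hv
    have h1 := swp_nm h.symm
    obtain ⟨h2, h3⟩ := hchar a ⟨a', ha'⟩ b ⟨b', hb'⟩ h1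
    rw [← h2, ← h3]
    exact h1
  have hact : ∀ (g : G) (a a' : AA p) (b b' : AA q),
      ((b : H) * (a : H) = (a' : H) * (b' : H) ∨ (b : H) * (a : H) = -((a' : H) * (b' : H))) →
      (((g • b : AA q) : H) * ((g • a : AA p) : H) =
          ((g • a' : AA p) : H) * ((g • b' : AA q) : H) ∨
        ((g • b : AA q) : H) * ((g • a : AA p) : H) =
          -(((g • a' : AA p) : H) * ((g • b' : AA q) : H))) := by
    intro g a a' b b' h
    rw [smulA_val, smulA_val, smulA_val, smulA_val, ← act_hmul, ← act_hmul, ← act_neg]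
    rcases h with h | h
    · left
      rw [h]
    · right
      rw [h]
  refine ⟨ρ, μ, hρs, hμs, ?_, ?_, ?_⟩
  · intro g a b
    exact (hchar _ _ _ _ (hact g _ _ _ _ (hexch a b))).1.symm
  · intro g b a
    have h := hexch a ((ρ a).symm b)
    rw [Equiv.apply_symm_apply] at h
    exact (hchar _ _ _ _ (hact g _ _ _ _ h)).2.symm
  · intro a b
    refine swp_nm' ?_ (hexch a b)
    have hv : nm (((μ (ρ a b) a : AA p) : H) * (ρ a b : H)) ∈ VV (p * q) :=
      nm_mem q p (μ (ρ a b) a).2 (ρ a b).2
    intro h0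
    have h1 := hv.1
    rcases nm_cases (((μ (ρ a b) a : AA p) : H) * (ρ a b : H)) with h2 | h2
    · rw [h2, h0] at h1
      exact lt_irrefl _ h1
    · rw [h2, Quaternion.re_neg, h0] at h1
      simp at h1

end Pool.Agent.TQS
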